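import Pool.Agent.H38.PI.Poly

/-!
# Finite algebras and endomorphism rings of finitely generated modules satisfy a polynomial identity
-/

set_option autoImplicit false

namespace Pool.Agent.H38.PI

/-- a ring which is a finitely generated module over a central subring -/
theorem isPI_of_finite (A T : Type) [CommRing A] [Ring T] [Algebra A T] [Module.Finite A T] : IsPI T := by
  classical
  obtain ⟨m, s, hs⟩ := Module.Finite.exists_fin (R := A) (M := T)
  refine ⟨m + 1, fun σ => (Equiv.Perm.sign σ : ℤ), by simp, fun x => ?_⟩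
  let F : AlternatingMap A T T (Fin (m + 1)) := MultilinearMap.alternatization (MultilinearMap.mkPiAlgebraFin A (m + 1) T)
  have hF : ∀ y : Fin (m + 1) → T, F y =
      ∑ σ : Equiv.Perm (Fin (m + 1)), (Equiv.Perm.sign σ : ℤ) • (List.ofFn fun i => y (σ i)).prod := by
    intro y
    show MultilinearMap.alternatization _ y = _
    rw [MultilinearMap.alternatization_apply]
    refine Finset.sum_congr rfl fun σ _ => ?_
    rw [MultilinearMap.domDomCongr_apply, MultilinearMap.mkPiAlgebraFin_apply]
    rfl
  have hx : ∀ i, ∃ a : Fin m → A, ∑ j, a j • s j = x i := by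
    intro i
    have h1 : x i ∈ Submodule.span A (Set.range s) := by
      rw [hs]
      exact Submodule.mem_top
    exact (Submodule.mem_span_range_iff_exists_fun A).1 h1
  choose a ha using hx
  rw [← hF, show x = fun i => ∑ j, a i j • s j from funext fun i => (ha i).symm]
  show F.toMultilinearMap _ = 0
  rw [MultilinearMap.map_sum]
  refine Finset.sum_eq_zero fun r _ => ?_
  rw [MultilinearMap.map_smul_univ F.toMultilinearMap (fun i => a i (r i)) fun i => s (r i)]
  obtain ⟨i, j, hij, hr⟩ := Fintype.exists_ne_map_eq_of_card_lt r (by rw [Fintype.card_fin, Fintype.card_fin]; omega)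
  have h0 : F (fun i => s (r i)) = 0 := F.map_eq_zero_of_eq _ (by rw [hr]) hij
  have h1 : F.toMultilinearMap (fun i => s (r i)) = 0 := h0
  rw [h1, smul_zero]

theorem lift_prod {A P M : Type} [CommRing A] [AddCommGroup P] [Module A P] [AddCommGroup M] [Module A M]
    (π : P →ₗ[A] M) (k : ℕ) (a : Fin k → Module.End A P) (b : Fin k → Module.End A M)
    (h : ∀ i, π ∘ₗ a i = b i ∘ₗ π) : π ∘ₗ (List.ofFn a).prod = (List.ofFn b).prod ∘ₗ π := by
  induction k with
  | zero =>
    rw [List.ofFn_zero, List.ofFn_zero, List.prod_nil, List.prod_nil]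
    rfl
  | succ k ih =>
    rw [List.ofFn_succ, List.ofFn_succ, List.prod_cons, List.prod_cons, Module.End.mul_eq_comp, Module.End.mul_eq_comp,
      ← LinearMap.comp_assoc, h, LinearMap.comp_assoc, ih (fun i => a i.succ) (fun i => b i.succ) (fun i => h _),
      LinearMap.comp_assoc]

/-- **the endomorphism ring of a finitely generated module over a commutative ring** -/
theorem isPI_end (A M : Type) [CommRing A] [AddCommGroup M] [Module A M] [Module.Finite A M] :
    IsPI (Module.End A M) := by
  classical
  obtain ⟨n, π, hπ⟩ := Module.Finite.exists_fin' A M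
  obtain ⟨d, c, hc, hs⟩ := isPI_of_finite A (Module.End A (Fin n → A))
  refine ⟨d, c, hc, fun x => ?_⟩
  have hl : ∀ i, ∃ y : Module.End A (Fin n → A), π ∘ₗ y = x i ∘ₗ π := fun i =>
    Module.projective_lifting_property π (x i ∘ₗ π) hπ
  choose y hy using hl
  have h1 := hs y
  refine LinearMap.ext fun v => ?_
  obtain ⟨w, rfl⟩ := hπ v
  have h2 : π ((∑ σ, c σ • (List.ofFn fun i => y (σ i)).prod) w) =
      (∑ σ, c σ • (List.ofFn fun i => x (σ i)).prod) (π w) := by
    rw [LinearMap.sum_apply, LinearMap.sum_apply, map_sum]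
    refine Finset.sum_congr rfl fun σ _ => ?_
    rw [LinearMap.smul_apply, LinearMap.smul_apply, map_zsmul]
    congr 1
    exact LinearMap.congr_fun (lift_prod π d (fun i => y (σ i)) (fun i => x (σ i)) fun i => hy _) w
  rw [← h2, h1, LinearMap.zero_apply, map_zero, LinearMap.zero_apply]

end Pool.Agent.H38.PI
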