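import Mathlib

/-!
# Rings with a polynomial identity: the definition of the statement
-/

set_option autoImplicit false

namespace Pool.Agent.H38.PI

/-- the ring `R` satisfies a multilinear polynomial identity `∑ c σ • x_(σ 0) x_(σ 1) ⋯ x_(σ (d - 1)) = 0` with integral
coefficients `c σ` and `c 1 = 1` -/
def IsPI (R : Type) [Ring R] : Prop :=
  ∃ (d : ℕ) (c : Equiv.Perm (Fin d) → ℤ), c 1 = 1 ∧
    ∀ x : Fin d → R, ∑ σ, c σ • (List.ofFn fun i => x (σ i)).prod = 0

end Pool.Agent.H38.PI
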