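import Pool.Agent.H38.PI.Kap2

/-!
# A ring with a polynomial identity modulo a nil ideal acts faithfully on a finitely generated module over a commutative ring
-/

set_option autoImplicit false

namespace Pool.Agent.H38.PI

open Polynomial

/-- the maximal left ideals of the polynomial ring -/
abbrev Mx (R : Type) [Ring R] : Type := {m : Ideal R[X] // m.IsMaximal}

theorem nil_of_ann {R : Type} [Ring R] (r : R) (h : ∀ (m : Mx R) (s : R[X] ⧸ m.1), (C r : R[X]) • s = 0) :
    IsNilpotent r := by
  classical
  -- the element `1 - r X` is left invertible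
  obtain ⟨q, hq⟩ : ∃ q : R[X], q * (1 - C r * X) = 1 := by
    by_contra hno
    push Not at hno
    have h1 : Ideal.span {(1 - C r * X : R[X])} ≠ ⊤ := by
      intro h2
      have h3 : (1 : R[X]) ∈ Ideal.span {(1 - C r * X : R[X])} := by
        rw [h2]
        exact Submodule.mem_top
      obtain ⟨q, hq⟩ := Submodule.mem_span_singleton.1 h3
      exact hno q hq
    obtain ⟨m, hm, hle⟩ := Ideal.exists_le_maximal _ h1
    have h4 : (1 - C r * X : R[X]) ∈ m := hle (Submodule.mem_span_singleton_self _)
    have h5 := h ⟨m, hm⟩ (Submodule.Quotient.mk X)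
    rw [← Submodule.Quotient.mk_smul, Submodule.Quotient.mk_eq_zero, smul_eq_mul] at h5
    have h6 : (1 : R[X]) ∈ m := by
      have := m.add_mem h4 h5
      rwa [sub_add_cancel] at this
    exact hm.ne_top ((Ideal.eq_top_iff_one m).2 h6)
  have h0 : q.coeff 0 = 1 := by
    have := congrArg (fun p => p.coeff 0) hq
    simpa [mul_sub, ← mul_assoc] using this
  have hs : ∀ i, q.coeff (i + 1) = q.coeff i * r := by
    intro i
    have := congrArg (fun p => p.coeff (i + 1)) hq
    simp only [mul_sub, mul_one, ← mul_assoc, coeff_sub, coeff_mul_X, coeff_mul_C] at this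
    rw [coeff_one, if_neg (by omega)] at this
    exact sub_eq_zero.1 this
  have hp : ∀ i, q.coeff i = r ^ i := by
    intro i
    induction i with
    | zero => rw [h0, pow_zero]
    | succ i ih => rw [hs, ih, pow_succ]
  refine ⟨q.natDegree + 1, ?_⟩
  rw [← hp]
  exact coeff_eq_zero_of_natDegree_lt (by omega)

/-- **the representation** -/
theorem embed {R : Type} [Ring R] (h : IsPI R) : ∃ (A M : Type) (_ : CommRing A) (_ : AddCommGroup M) (_ : Module A M)
    (_ : Module.Finite A M) (ρ : R →+* Module.End A M), ∀ r, ρ r = 0 → IsNilpotent r := by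
  classical
  obtain ⟨d, c, hc, hs⟩ := h
  have hs' : Sat c R[X] := sat_poly hs
  have hsimp : ∀ m : Mx R, IsSimpleModule R[X] (R[X] ⧸ m.1) := fun m => isSimpleModule_iff_isCoatom.2 m.2.out
  choose L iF iM hcomm e he using fun m : Mx R => @simple_bound R[X] _ d c hc hs' (R[X] ⧸ m.1) _ _ (hsimp m)
  -- the element `r` acts
  let act : R → (∀ m : Mx R, R[X] ⧸ m.1) →ₗ[∀ m : Mx R, L m] (∀ m : Mx R, R[X] ⧸ m.1) := fun r =>
    { toFun := fun v m => (C r : R[X]) • v m
      map_add' := fun v w => by
        funext m
        exact smul_add _ _ _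
      map_smul' := fun a v => by
        funext m
        exact hcomm m _ _ _ }
  let ρ : R →+* Module.End (∀ m : Mx R, L m) (∀ m : Mx R, R[X] ⧸ m.1) :=
    { toFun := act
      map_one' := by
        refine LinearMap.ext fun v => ?_
        funext m
        show (C (1 : R) : R[X]) • v m = v m
        rw [C_1, one_smul]
      map_mul' := fun r s => by
        refine LinearMap.ext fun v => ?_
        funext m
        show (C (r * s) : R[X]) • v m = (C r : R[X]) • (C s : R[X]) • v m
        rw [C_mul, mul_smul]
      map_zero' := by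
        refine LinearMap.ext fun v => ?_
        funext m
        show (C (0 : R) : R[X]) • v m = 0
        rw [C_0, zero_smul]
      map_add' := fun r s => by
        refine LinearMap.ext fun v => ?_
        funext m
        show (C (r + s) : R[X]) • v m = (C r : R[X]) • v m + (C s : R[X]) • v m
        rw [C_add, add_smul] }
  refine ⟨∀ m : Mx R, L m, ∀ m : Mx R, R[X] ⧸ m.1, inferInstance, inferInstance, inferInstance, ?_, ρ, fun r hr => ?_⟩
  · refine ⟨⟨Finset.univ.image fun (j : Fin d) (m : Mx R) => e m j, ?_⟩⟩
    rw [eq_top_iff]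
    intro v _
    have h1 : ∀ m, ∃ a : Fin d → L m, ∑ j, a j • e m j = v m := by
      intro m
      have h2 : v m ∈ Submodule.span (L m) (Set.range (e m)) := by
        rw [he m]
        exact Submodule.mem_top
      exact (Submodule.mem_span_range_iff_exists_fun (L m)).1 h2
    choose a ha using h1
    have h3 : v = ∑ j : Fin d, (fun m => a m j : ∀ m : Mx R, L m) • (fun m : Mx R => e m j) := by
      funext m
      rw [Finset.sum_apply, ← ha m]
      rfl
    rw [h3]
    refine Submodule.sum_mem _ fun j _ => Submodule.smul_mem _ _ (Submodule.subset_span ?_)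
    rw [Finset.mem_coe]
    exact Finset.mem_image_of_mem _ (Finset.mem_univ j)
  · refine nil_of_ann r fun m s => ?_
    have h1 := LinearMap.congr_fun hr fun m' => if h : m' = m then h ▸ s else 0
    have h2 := congrFun h1 m
    have h3 : (C r : R[X]) • (if h : m = m then h ▸ s else 0 : R[X] ⧸ m.1) = 0 := h2
    rwa [dif_pos rfl] at h3

end Pool.Agent.H38.PI
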