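import Pool.Agent.H38.PI.Lev
import Pool.Agent.H38.LV.Def

/-!
# Congruence subgroups of nil ideals are hyper-(locally nilpotent)
-/

set_option autoImplicit false

namespace Pool.Agent.H38.PI

open Pool.Agent.H38.LV

variable {H : Type} [Group H] {n : ℕ} {R : Type} [Ring R]

/-- reduction of the coefficients -/
noncomputable def red (g : H →* (Matrix (Fin n) (Fin n) R)ˣ) {E : Type} [Ring E] (f : R →+* E) :
    H →* (Matrix (Fin n) (Fin n) E)ˣ :=
  (Units.map (f.mapMatrix : Matrix (Fin n) (Fin n) R →+* Matrix (Fin n) (Fin n) E).toMonoidHom).comp g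

theorem mem_red (g : H →* (Matrix (Fin n) (Fin n) R)ˣ) {E : Type} [Ring E] (f : R →+* E) (h : H) :
    h ∈ (red g f).ker ↔ ∀ i j, f ((g h : Matrix (Fin n) (Fin n) R) i j - (1 : Matrix (Fin n) (Fin n) R) i j) = 0 := by
  have h1 : ∀ i j, f ((1 : Matrix (Fin n) (Fin n) R) i j) = (1 : Matrix (Fin n) (Fin n) E) i j := by
    intro i j
    rw [Matrix.one_apply, Matrix.one_apply]
    split_ifs
    · exact map_one f
    · exact map_zero f
  rw [MonoidHom.mem_ker, Units.ext_iff, ← Matrix.ext_iff]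
  refine forall_congr' fun i => forall_congr' fun j => ?_
  rw [map_sub, sub_eq_zero, h1]
  rfl

theorem red_apply (g : H →* (Matrix (Fin n) (Fin n) R)ˣ) {E : Type} [Ring E] (f : R →+* E) (h : H) :
    (red g f h : Matrix (Fin n) (Fin n) E) = f.mapMatrix (g h : Matrix (Fin n) (Fin n) R) := rfl

theorem chain_ideal {C : Set (Ideal R)} (hC : IsChain (· ≤ ·) C) (hne : C.Nonempty) {ι : Type} [DecidableEq ι]
    (s : Finset ι) (y : ι → R) (hy : ∀ i, ∃ J ∈ C, y i ∈ J) : ∃ J ∈ C, ∀ i ∈ s, y i ∈ J := by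
  induction s using Finset.induction_on with
  | empty =>
    obtain ⟨J, hJ⟩ := hne
    exact ⟨J, hJ, fun i hi => absurd hi (Finset.notMem_empty i)⟩
  | insert a s _ ih =>
    obtain ⟨J, hJ, h1⟩ := ih
    obtain ⟨J', hJ', h2⟩ := hy a
    rcases hC.total hJ hJ' with h | h
    · refine ⟨J', hJ', fun i hi => ?_⟩
      rcases Finset.mem_insert.1 hi with rfl | hi
      · exact h2
      · exact h (h1 i hi)
    · refine ⟨J, hJ, fun i hi => ?_⟩
      rcases Finset.mem_insert.1 hi with rfl | hi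
      · exact h h2
      · exact h1 i hi

/-- **the kernel of the reduction modulo a nil ideal** -/
theorem red_hyper (hR : IsPI R) (g : H →* (Matrix (Fin n) (Fin n) R)ˣ) (hg : Function.Injective g) {E : Type} [Ring E]
    (ρ : R →+* E) (hρ : ∀ r, ρ r = 0 → IsNilpotent r) : IsHyper (red g ρ).ker := by
  classical
  intro N hN hNK
  -- the good ideals
  let F : Set (Ideal R) := {J | (∀ x ∈ J, ∀ r, x * r ∈ J) ∧ (∀ x ∈ J, ρ x = 0) ∧
    ∀ h : H, (∀ i j, (g h : Matrix (Fin n) (Fin n) R) i j - (1 : Matrix (Fin n) (Fin n) R) i j ∈ J) → h ∈ N}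
  have hbot : (⊥ : Ideal R) ∈ F := by
    refine ⟨fun x hx r => ?_, fun x hx => ?_, fun h hh => ?_⟩
    · rw [Submodule.mem_bot] at hx ⊢
      rw [hx, zero_mul]
    · rw [Submodule.mem_bot] at hx
      rw [hx, map_zero]
    · have h1 : g h = 1 := by
        refine Units.ext (Matrix.ext fun i j => ?_)
        exact sub_eq_zero.1 ((Submodule.mem_bot R).1 (hh i j))
      rw [hg (h1.trans (map_one g).symm)]
      exact N.one_mem
  obtain ⟨J, _, hJ⟩ := zorn_le_nonempty₀ F (fun C hCF hC J1 hJ1 => by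
    have hmem : ∀ x, x ∈ sSup C ↔ ∃ J ∈ C, x ∈ J := fun x => Submodule.mem_sSup_of_directed ⟨J1, hJ1⟩ hC.directedOn
    refine ⟨sSup C, ⟨fun x hx r => ?_, fun x hx => ?_, fun h hh => ?_⟩, fun z hz => le_sSup hz⟩
    · obtain ⟨J, hJ, hx⟩ := (hmem x).1 hx
      exact (hmem _).2 ⟨J, hJ, (hCF hJ).1 x hx r⟩
    · obtain ⟨J, hJ, hx⟩ := (hmem x).1 hx
      exact (hCF hJ).2.1 x hx
    · obtain ⟨J, hJ, h1⟩ := chain_ideal hC ⟨J1, hJ1⟩ (Finset.univ : Finset (Fin n × Fin n))
        (fun p => (g h : Matrix (Fin n) (Fin n) R) p.1 p.2 - (1 : Matrix (Fin n) (Fin n) R) p.1 p.2)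
        fun p => (hmem _).1 (hh p.1 p.2)
      exact (hCF hJ).2.2 h fun i j => h1 (i, j) (Finset.mem_univ _)) ⊥ hbot
  obtain ⟨hJ2, hJρ, hJN⟩ := hJ.prop
  have hmax : ∀ J' ∈ F, J ≤ J' → J' ≤ J := fun J' h1 h2 => hJ.2 h1 h2
  have iT : J.IsTwoSided := ⟨fun r hx => hJ2 _ hx _⟩
  -- there is an element of the kernel of `ρ` outside of `J`
  obtain ⟨x0, hx0, hx0J⟩ : ∃ x, ρ x = 0 ∧ x ∉ J := by
    by_contra hno
    push Not at hno
    refine absurd hNK (not_lt_of_ge fun h hh => ?_)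
    exact hJN h fun i j => hno _ ((mem_red g ρ h).1 hh i j)
  have hmk : ∀ x, Ideal.Quotient.mk J x = 0 ↔ x ∈ J := fun x => Ideal.Quotient.eq_zero_iff_mem
  have hsurj : Function.Surjective (Ideal.Quotient.mk J) := Ideal.Quotient.mk_surjective
  obtain ⟨B, hB2, hB0, hBS, hBB⟩ := exists_sq (R := R ⧸ J) (by
      obtain ⟨d, c, hc, hs⟩ := hR
      exact ⟨d, c, hc, sat_surj (Ideal.Quotient.mk J) hsurj hs⟩)
    ((RingHom.ker ρ).map (Ideal.Quotient.mk J)) (by
      intro x hx r
      obtain ⟨y, hy, rfl⟩ := (Ideal.mem_map_iff_of_surjective _ hsurj).1 hx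
      obtain ⟨s, rfl⟩ := hsurj r
      rw [← map_mul]
      refine Ideal.mem_map_of_mem _ ?_
      rw [RingHom.mem_ker] at hy ⊢
      rw [map_mul, hy, zero_mul]) (by
      intro x hx
      obtain ⟨y, hy, rfl⟩ := (Ideal.mem_map_iff_of_surjective _ hsurj).1 hx
      exact (hρ y hy).map _) (by
      intro h0
      have h1 : Ideal.Quotient.mk J x0 ∈ (RingHom.ker ρ).map (Ideal.Quotient.mk J) := Ideal.mem_map_of_mem _ hx0
      rw [h0, Submodule.mem_bot, hmk] at h1
      exact hx0J h1)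
  -- the preimage
  obtain ⟨J', hJ'⟩ : ∃ J' : Ideal R, ∀ x, x ∈ J' ↔ Ideal.Quotient.mk J x ∈ B :=
    ⟨B.comap (Ideal.Quotient.mk J), fun x => Ideal.mem_comap⟩
  have iT' : J'.IsTwoSided := ⟨fun r hx => by
    rw [hJ', map_mul]
    exact hB2 _ ((hJ' _).1 hx) _⟩
  have hJρ' : ∀ x ∈ J', ρ x = 0 := by
    intro x hx
    obtain ⟨y, hy, hxy⟩ := (Ideal.mem_map_iff_of_surjective _ hsurj).1 (hBS ((hJ' x).1 hx))
    have h1 : x - y ∈ J := by
      rw [← hmk, map_sub, hxy, sub_self]
    have h2 := hJρ _ h1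
    rw [map_sub, sub_eq_zero] at h2
    rw [h2]
    exact hy
  have hlt : ∃ h1 : H, (∀ i j, (g h1 : Matrix (Fin n) (Fin n) R) i j - (1 : Matrix (Fin n) (Fin n) R) i j ∈ J') ∧
      h1 ∉ N := by
    by_contra hno
    push Not at hno
    have h1 : J' ≤ J := by
      refine hmax J' ⟨fun x hx r => iT'.mul_mem_of_left r hx, hJρ', hno⟩ fun x hx => ?_
      rw [hJ', (hmk x).2 hx]
      exact B.zero_mem
    apply hB0
    rw [eq_bot_iff]
    intro b hb
    obtain ⟨x, rfl⟩ := hsurj b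
    rw [Submodule.mem_bot, hmk]
    exact h1 ((hJ' x).2 hb)
  obtain ⟨h1, hh1, hh1N⟩ := hlt
  have hmemJ' : ∀ h, h ∈ (red g (Ideal.Quotient.mk J')).ker ↔
      ∀ i j, (g h : Matrix (Fin n) (Fin n) R) i j - (1 : Matrix (Fin n) (Fin n) R) i j ∈ J' := by
    intro h
    rw [mem_red]
    exact forall_congr' fun i => forall_congr' fun j => Ideal.Quotient.eq_zero_iff_mem
  -- elements commute modulo `N`
  have hcomm : ∀ a ∈ (red g (Ideal.Quotient.mk J')).ker, ∀ b ∈ (red g (Ideal.Quotient.mk J')).ker,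
      a * b * (b * a)⁻¹ ∈ N := by
    have key : ∀ a ∈ (red g (Ideal.Quotient.mk J')).ker, ∀ b ∈ (red g (Ideal.Quotient.mk J')).ker,
        ((red g (Ideal.Quotient.mk J) a : Matrix (Fin n) (Fin n) (R ⧸ J)) - 1) *
          ((red g (Ideal.Quotient.mk J) b : Matrix (Fin n) (Fin n) (R ⧸ J)) - 1) = 0 := by
      intro a ha b hb
      refine Matrix.ext fun i j => ?_
      rw [Matrix.mul_apply]
      refine Finset.sum_eq_zero fun k _ => ?_
      have hh : ∀ a ∈ (red g (Ideal.Quotient.mk J')).ker, ∀ i j,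
          ((red g (Ideal.Quotient.mk J) a : Matrix (Fin n) (Fin n) (R ⧸ J)) - 1) i j ∈ B := by
        intro a ha i j
        have h2 := (hJ' _).1 ((hmemJ' a).1 ha i j)
        have h3 : ((red g (Ideal.Quotient.mk J) a : Matrix (Fin n) (Fin n) (R ⧸ J)) - 1) i j =
            Ideal.Quotient.mk J ((g a : Matrix (Fin n) (Fin n) R) i j - (1 : Matrix (Fin n) (Fin n) R) i j) := by
          rw [map_sub, Matrix.sub_apply]
          congr 1
          rw [Matrix.one_apply, Matrix.one_apply]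
          split_ifs
          · exact (map_one _).symm
          · exact (map_zero _).symm
        rw [h3]
        exact h2
      exact hBB _ (hh a ha i k) _ (hh b hb k j)
    intro a ha b hb
    have h2 := key a ha b hb
    have h3 := key b hb a ha
    have h4 : red g (Ideal.Quotient.mk J) (a * b) = red g (Ideal.Quotient.mk J) (b * a) := by
      refine Units.ext ?_
      rw [map_mul, map_mul, Units.val_mul, Units.val_mul]
      rw [sub_mul, mul_sub, mul_sub, mul_one, one_mul, one_mul] at h2 h3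
      have e1 := sub_eq_zero.1 h2
      have e2 := sub_eq_zero.1 h3
      have e3 := sub_eq_iff_eq_add.1 e1
      have e4 := sub_eq_iff_eq_add.1 e2
      rw [e3, e4]
      abel
    have h5 : a * b * (b * a)⁻¹ ∈ (red g (Ideal.Quotient.mk J)).ker := by
      rw [MonoidHom.mem_ker, map_mul, map_inv, h4, mul_inv_cancel]
    refine hJN _ fun i j => ?_
    exact (hmk _).1 ((mem_red g _ _).1 h5 i j)
  refine ⟨(red g (Ideal.Quotient.mk J')).ker.map (QuotientGroup.mk' N), ?_, ?_, ?_, Or.inl ?_⟩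
  · exact Subgroup.Normal.map inferInstance _ (QuotientGroup.mk'_surjective N)
  · intro h0
    rw [Subgroup.map_eq_bot_iff, QuotientGroup.ker_mk'] at h0
    exact hh1N (h0 ((hmemJ' h1).2 hh1))
  · refine Subgroup.map_mono fun h hh => ?_
    rw [mem_red]
    intro i j
    exact hJρ' _ ((hmemJ' h).1 hh i j)
  · intro S _
    let _ : CommGroup S :=
      { (inferInstance : Group S) with
        mul_comm := fun x y => by
          refine Subtype.ext (Subtype.ext ?_)
          obtain ⟨a, ha, hax⟩ := x.1.2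
          obtain ⟨b, hb, hby⟩ := y.1.2
          show (x.1.1 : H ⧸ N) * y.1.1 = y.1.1 * x.1.1
          rw [← hax, ← hby, ← map_mul, ← map_mul]
          have h2 := hcomm a ha b hb
          exact (QuotientGroup.eq_iff_div_mem.2 (by rw [div_eq_mul_inv]; exact h2)) }
    exact CommGroup.isNilpotent

end Pool.Agent.H38.PI
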