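import Pool.Agent.H38.PI.Poly

/-!
# Kaplansky's theorem: simple modules over rings with a polynomial identity
-/

set_option autoImplicit false

namespace Pool.Agent.H38.PI

open Polynomial

/-- the product along a chain of vectors -/
theorem chain_prod {T M : Type} [Ring T] [AddCommGroup M] [Module T M] {d : ℕ} (v : ℕ → M) (r : ℕ → T)
    (h : ∀ i < d, ∀ j ≤ d, r i • v j = if j = i + 1 then v i else 0) (n : ℕ) (hn : n ≤ d) (w : Fin n → ℕ)
    (hw : ∀ i, w i < d) :
    (List.ofFn fun i => r (w i)).prod • v n = if ∀ i, w i = i then v 0 else 0 := by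
  induction n with
  | zero => simp
  | succ n ih =>
    have h1 := h (w (Fin.last n)) (hw _) (n + 1) hn
    rw [List.ofFn_succ', List.concat_eq_append, List.prod_append, List.prod_singleton, mul_smul, h1]
    by_cases h2 : w (Fin.last n) = n
    · rw [if_pos (by omega), h2, ih (by omega) (fun i => w i.castSucc) fun i => hw _]
      have h3 : (∀ i, w i = i) ↔ ∀ i : Fin n, w i.castSucc = i := by
        constructor
        · intro h i
          rw [h]
          rfl
        · intro h i
          refine Fin.lastCases ?_ (fun j => ?_) i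
          · rw [h2]
            rfl
          · rw [h]
            rfl
      simp only [h3]
    · rw [if_neg (by omega), smul_zero, if_neg]
      intro h3
      exact h2 (h3 (Fin.last n))

/-- a linearly independent family of `d + 1` vectors gives a contradiction -/
theorem no_indep {T M : Type} [Ring T] [AddCommGroup M] [Module T M] [IsSimpleModule T M] {d : ℕ}
    {c : Equiv.Perm (Fin d) → ℤ} (hc : c 1 = 1) (hs : Sat c T) (D : Type) [DivisionRing D] [Module D M]
    (hd : ∀ (f : M →ₗ[D] M) (s : Finset M), ∃ r : T, ∀ m ∈ s, f m = r • m)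
    (v : Fin (d + 1) → M) (hv : LinearIndependent D v) : False := by
  classical
  have hext : ∀ w : Fin (d + 1) → M, ∃ f : M →ₗ[D] M, ∀ j, f (v j) = w j := by
    intro w
    obtain ⟨g, hg⟩ := LinearMap.exists_extend ((Module.Basis.span hv).constr ℕ w)
    refine ⟨g, fun j => ?_⟩
    have h1 := LinearMap.congr_fun hg (Module.Basis.span hv j)
    rw [Module.Basis.constr_basis] at h1
    rw [← h1, LinearMap.comp_apply, Submodule.subtype_apply, Module.Basis.span_apply]
  let v' : ℕ → M := fun j => if h : j < d + 1 then v ⟨j, h⟩ else 0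
  have hr : ∀ i : ℕ, ∃ r : T, ∀ j ≤ d, r • v' j = if j = i + 1 then v' i else 0 := by
    intro i
    obtain ⟨f, hf⟩ := hext fun j => if (j : ℕ) = i + 1 then v' i else 0
    obtain ⟨r, hr⟩ := hd f (Finset.univ.image v)
    refine ⟨r, fun j hj => ?_⟩
    have h1 : v' j = v ⟨j, by omega⟩ := dif_pos (by omega)
    rw [h1, ← hr _ (Finset.mem_image_of_mem _ (Finset.mem_univ _)), hf]
  choose r hr using hr
  have h0 := hs fun i => r i
  have h1 : ev c (fun i : Fin d => r i) • v' d = v' 0 := by
    rw [ev, Finset.sum_smul, Finset.sum_eq_single (1 : Equiv.Perm (Fin d))]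
    · rw [hc, one_smul, chain_prod v' r (fun i _ j hj => hr i j hj) d le_rfl (fun i => ((1 : Equiv.Perm (Fin d)) i : ℕ))
        (fun i => Fin.is_lt _), if_pos]
      intro i
      rfl
    · intro σ _ hσ
      rw [smul_assoc, chain_prod v' r (fun i _ j hj => hr i j hj) d le_rfl (fun i => (σ i : ℕ)) (fun i => Fin.is_lt _),
        if_neg, smul_zero]
      intro h
      apply hσ
      ext i
      exact h i
    · intro h
      exact (h (Finset.mem_univ _)).elim
  rw [h0, zero_smul] at h1
  have h2 : v' 0 = v 0 := dif_pos (by omega)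
  rw [h2] at h1
  exact hv.ne_zero 0 h1.symm

/-- a vector space without `d + 1` independent vectors is spanned by `d` vectors -/
theorem exists_span {D M : Type} [DivisionRing D] [AddCommGroup M] [Module D M] (d : ℕ)
    (h : ∀ v : Fin (d + 1) → M, ¬ LinearIndependent D v) : ∃ e : Fin d → M, Submodule.span D (Set.range e) = ⊤ := by
  classical
  let b := Module.Basis.ofVectorSpace D M
  have hno : ∀ f : Fin (d + 1) → Module.Basis.ofVectorSpaceIndex D M, ¬ Function.Injective f := by
    intro f hf
    exact h (fun i => b (f i)) (b.linearIndependent.comp f hf)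
  have hfin : Finite (Module.Basis.ofVectorSpaceIndex D M) := by
    by_contra hinf
    rw [not_finite_iff_infinite] at hinf
    have e := Infinite.natEmbedding (Module.Basis.ofVectorSpaceIndex D M)
    exact hno (fun i => e i) fun i j hij => Fin.ext (e.injective hij)
  have := Fintype.ofFinite (Module.Basis.ofVectorSpaceIndex D M)
  have hcard : Fintype.card (Module.Basis.ofVectorSpaceIndex D M) ≤ d := by
    by_contra hlt
    have h1 : Fintype.card (Fin (d + 1)) ≤ Fintype.card (Module.Basis.ofVectorSpaceIndex D M) := by
      rw [Fintype.card_fin]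
      omega
    obtain ⟨e⟩ := Function.Embedding.nonempty_of_card_le h1
    exact hno e e.injective
  let q := Fintype.equivFin (Module.Basis.ofVectorSpaceIndex D M)
  refine ⟨fun i => if hi : (i : ℕ) < Fintype.card (Module.Basis.ofVectorSpaceIndex D M) then b (q.symm ⟨i, hi⟩) else 0, ?_⟩
  rw [eq_top_iff, ← b.span_eq, Submodule.span_le]
  rintro _ ⟨j, rfl⟩
  refine Submodule.subset_span ⟨⟨q j, lt_of_lt_of_le (q j).2 hcard⟩, ?_⟩
  dsimp only
  rw [dif_pos (q j).2]
  congr 1
  exact q.symm_apply_apply j

end Pool.Agent.H38.PI
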