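import Pool.Agent.H38.PI.Kap

/-!
# Kaplansky's theorem: a field
-/

set_option autoImplicit false

namespace Pool.Agent.H38.PI

open Polynomial

theorem chain_fin {E : Type} [Ring E] {C : Set (Subring E)} (hC : IsChain (· ≤ ·) C) (hne : C.Nonempty) (n : ℕ)
    (y : Fin n → E) (hy : ∀ i, ∃ T ∈ C, y i ∈ T) : ∃ T ∈ C, ∀ i, y i ∈ T := by
  induction n with
  | zero =>
    obtain ⟨T, hT⟩ := hne
    exact ⟨T, hT, fun i => i.elim0⟩
  | succ n ih =>
    obtain ⟨T, hT, h1⟩ := ih (fun i => y i.succ) fun i => hy _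
    obtain ⟨T', hT', h2⟩ := hy 0
    rcases hC.total hT hT' with h | h
    · refine ⟨T', hT', fun i => ?_⟩
      refine Fin.cases h2 (fun j => h (h1 j)) i
    · refine ⟨T, hT, fun i => ?_⟩
      refine Fin.cases (h h2) (fun j => h1 j) i

theorem exists_maxring {E : Type} [Ring E] {d : ℕ} {c : Equiv.Perm (Fin d) → ℤ} (T0 : Subring E) (h0 : Sat c T0) :
    ∃ T : Subring E, T0 ≤ T ∧ Sat c T ∧ ∀ T' : Subring E, T ≤ T' → Sat c T' → T' = T := by
  obtain ⟨T, hT0, hT⟩ := zorn_le_nonempty₀ {T : Subring E | Sat c T} (fun C hCs hC T1 hT1 => by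
    refine ⟨sSup C, ?_, fun z hz => le_sSup hz⟩
    intro x
    have hdir : DirectedOn (· ≤ ·) C := hC.directedOn
    obtain ⟨T, hT, h2⟩ := chain_fin hC ⟨T1, hT1⟩ d (fun i => (x i : E)) fun i =>
      (Subring.mem_sSup_of_directedOn ⟨T1, hT1⟩ hdir).1 (x i).2
    have h3 := hCs hT fun i => ⟨x i, h2 i⟩
    apply (sSup C).subtype_injective
    rw [map_ev, map_zero]
    have h4 := map_ev c T.subtype fun i => ⟨x i, h2 i⟩
    rw [h3, map_zero] at h4
    exact h4.symm) T0 h0
  exact ⟨T, hT0, hT.prop, fun T' h1 h2 => le_antisymm (hT.2 h2 h1) h1⟩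

/-- **Kaplansky**: a simple module over a ring with a polynomial identity of degree `d` is a vector space of dimension
at most `d` over a field which commutes with the action of the ring -/
theorem simple_bound {R : Type} [Ring R] {d : ℕ} {c : Equiv.Perm (Fin d) → ℤ} (hc : c 1 = 1) (hs : Sat c R)
    (M : Type) [AddCommGroup M] [Module R M] [IsSimpleModule R M] :
    ∃ (L : Type) (_ : Field L) (_ : Module L M), (∀ (r : R) (l : L) (m : M), r • l • m = l • r • m) ∧
      ∃ e : Fin d → M, Submodule.span L (Set.range e) = ⊤ := by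
  classical
  let ρ : R →+* Module.End ℤ M := Module.toModuleEnd ℤ (S := R) M
  have hρ : ∀ (r : R) (m : M), ρ r m = r • m := fun r m => rfl
  obtain ⟨T, hT0, hT, hmax⟩ := exists_maxring (c := c) ρ.range (sat_surj ρ.rangeRestrict ρ.rangeRestrict_surjective hs)
  have hTm : ∀ (t : T) (m : M), t • m = (t : Module.End ℤ M) m := fun t m => rfl
  have hR := (isSimpleModule_iff_toSpanSingleton_surjective (R := R) (M := M)).1 inferInstance
  have hsimp : IsSimpleModule T M := by
    rw [isSimpleModule_iff_toSpanSingleton_surjective]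
    refine ⟨hR.1, fun x hx y => ?_⟩
    obtain ⟨r, hr⟩ := hR.2 x hx y
    rw [LinearMap.toSpanSingleton_apply] at hr
    refine ⟨⟨ρ r, hT0 ⟨r, rfl⟩⟩, ?_⟩
    rw [LinearMap.toSpanSingleton_apply, hTm]
    exact hr
  have hmem : ∀ b : Module.End T M, b.toAddMonoidHom.toIntLinearMap ∈ T := by
    intro b
    have hcomm : ∀ a : T, Commute (T.subtype a) (b.toAddMonoidHom.toIntLinearMap : Module.End ℤ M) := by
      intro a
      refine LinearMap.ext fun m => ?_
      exact (b.map_smul a m).symm
    have h1 : (Polynomial.eval₂RingHom' T.subtype (b.toAddMonoidHom.toIntLinearMap : Module.End ℤ M) hcomm).range = T := by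
      apply hmax
      · intro t ht
        refine ⟨C ⟨t, ht⟩, ?_⟩
        simp
      · exact sat_surj _ (RingHom.rangeRestrict_surjective _) (sat_poly hT)
    have h2 : (b.toAddMonoidHom.toIntLinearMap : Module.End ℤ M) ∈
        (Polynomial.eval₂RingHom' T.subtype (b.toAddMonoidHom.toIntLinearMap : Module.End ℤ M) hcomm).range := by
      refine ⟨X, ?_⟩
      simp
    exact h1.le h2
  have hcommD : ∀ a b : Module.End T M, a * b = b * a := by
    intro a b
    refine LinearMap.ext fun m => ?_
    have h1 : ∀ m, b m = (⟨_, hmem b⟩ : T) • m := fun m => rfl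
    show a (b m) = b (a m)
    rw [h1, h1, a.map_smul]
  let F : Field (Module.End T M) := { (inferInstance : DivisionRing (Module.End T M)) with mul_comm := hcommD }
  refine ⟨Module.End T M, F, Module.End.applyModule, ?_, ?_⟩
  · intro r l m
    have h1 : ∀ m : M, r • m = (⟨ρ r, hT0 ⟨r, rfl⟩⟩ : T) • m := fun m => by
      rw [hTm]
      exact (hρ r m).symm
    rw [h1, h1]
    exact (l.map_smul _ m).symm
  · refine exists_span d fun v hv => ?_
    exact no_indep hc hT (Module.End T M) (fun f s => jacobson_density f s) v hv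

end Pool.Agent.H38.PI
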