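import Pool.Agent.H38.PI.Poly

/-!
# Nil ideals of rings with a polynomial identity
-/

set_option autoImplicit false

namespace Pool.Agent.H38.PI

theorem zero_prod {R : Type} [Ring R] (n : ℕ) (w : Fin (n + 1) → R) (i : Fin n) (h : w i.castSucc * w i.succ = 0) :
    (List.ofFn w).prod = 0 := by
  induction n with
  | zero => exact i.elim0
  | succ n ih =>
    rw [List.ofFn_succ, List.prod_cons]
    revert h
    refine Fin.cases (fun h => ?_) (fun j h => ?_) i
    · rw [List.ofFn_succ, List.prod_cons, ← mul_assoc]
      have h1 : w 0 * w (Fin.succ 0) = 0 := h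
      rw [h1, zero_mul]
    · rw [ih (fun i => w i.succ) j, mul_zero]
      rw [← Fin.succ_castSucc] at h
      exact h

/-- a nil left ideal with an identity contains an element `z ≠ 0` with `z R z = 0` -/
theorem exists_zRz {R : Type} [Ring R] (d : ℕ) (c : Equiv.Perm (Fin d) → ℤ) (hc : c 1 = 1) (L : Ideal R) (hL : L ≠ ⊥)
    (hnil : ∀ x ∈ L, IsNilpotent x) (hs : ∀ y ∈ L, ∀ x : Fin d → R, (∀ i, x i ∈ L) → y * ev c x = 0) :
    ∃ z ∈ L, z ≠ 0 ∧ ∀ r, z * r * z = 0 := by
  classical
  induction d generalizing L with
  | zero =>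
    exfalso
    apply hL
    rw [eq_bot_iff]
    intro y hy
    have h1 := hs y hy (fun i => i.elim0) fun i => i.elim0
    rw [ev, Finset.sum_eq_single (1 : Equiv.Perm (Fin 0)) (fun σ _ h => (h (Subsingleton.elim _ _)).elim)
      (fun h => (h (Finset.mem_univ _)).elim), hc, one_smul] at h1
    simpa using h1
  | succ d ih =>
    by_cases hL2 : ∀ x ∈ L, ∀ y ∈ L, x * y = 0
    · obtain ⟨z, hz, hz0⟩ := Submodule.exists_mem_ne_zero_of_ne_bot hL
      refine ⟨z, hz, hz0, fun r => ?_⟩
      rw [mul_assoc]
      exact hL2 z hz _ (L.mul_mem_left r hz)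
    · push Not at hL2
      obtain ⟨y0, hy0, b, hb, hyb⟩ := hL2
      have hex : ∃ k, ∀ y ∈ L, y * b ^ k = 0 := by
        obtain ⟨k, hk⟩ := hnil b hb
        exact ⟨k, fun y _ => by rw [hk, mul_zero]⟩
      have hk := Nat.find_spec hex
      have hmin := fun m (h : m < Nat.find hex) => Nat.find_min hex h
      rcases hf : Nat.find hex with _ | _ | k
      · rw [hf] at hk
        have h1 := hk y0 hy0
        rw [pow_zero, mul_one] at h1
        exact (hyb (by rw [h1, zero_mul])).elim
      · rw [hf] at hk
        have h1 := hk y0 hy0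
        rw [zero_add, pow_one] at h1
        exact (hyb h1).elim
      · rw [hf] at hk hmin
        have h1 := hmin (k + 1) (by omega)
        push Not at h1
        obtain ⟨y1, hy1, hyz⟩ := h1
        obtain ⟨z, hzd⟩ : ∃ z, z = b ^ (k + 1) := ⟨_, rfl⟩
        rw [← hzd] at hyz
        have hz : z ∈ L := by
          rw [hzd, pow_succ]
          exact L.mul_mem_left _ hb
        have hzz : ∀ y ∈ L, y * z * z = 0 := by
          intro y hy
          rw [hzd, mul_assoc, ← pow_add, show k + 1 + (k + 1) = (k + 1 + 1) + k by omega, pow_add, ← mul_assoc,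
            hk y hy, zero_mul]
        let L1 : Ideal R := Submodule.map (LinearMap.toSpanSingleton R R z) L
        have hL1 : L1 ≤ L := by
          rintro _ ⟨l, _, rfl⟩
          rw [LinearMap.toSpanSingleton_apply, smul_eq_mul]
          exact L.mul_mem_left _ hz
        have hc' : c (Equiv.Perm.decomposeFin.symm (0, 1)) = 1 := by
          rw [Equiv.Perm.decomposeFin_symm_of_one, Equiv.swap_self]
          exact hc
        obtain ⟨z', hz', h2⟩ := ih (fun e => c (Equiv.Perm.decomposeFin.symm (0, e))) hc' L1 (by
          intro h3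
          have h4 : y1 * z ∈ L1 := ⟨y1, hy1, by rw [LinearMap.toSpanSingleton_apply, smul_eq_mul]⟩
          rw [h3] at h4
          exact hyz h4) (fun x hx => hnil x (hL1 hx)) (by
          rintro _ ⟨y, hy, rfl⟩ x hx
          rw [LinearMap.toSpanSingleton_apply, smul_eq_mul]
          have h3 := hs y hy (Fin.cons z x) (fun i => Fin.cases hz (fun j => hL1 (hx j)) i)
          have h4 : ev c (Fin.cons z x : Fin (d + 1) → R) =
              z * ev (fun e => c (Equiv.Perm.decomposeFin.symm (0, e))) x := by
            rw [ev, ← Equiv.sum_comp Equiv.Perm.decomposeFin.symm, Fintype.sum_prod_type, Fin.sum_univ_succ,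
              Finset.sum_eq_zero (s := Finset.univ (α := Fin d)), add_zero, ev, Finset.mul_sum]
            · refine Finset.sum_congr rfl fun e _ => ?_
              rw [mul_smul_comm, List.ofFn_succ, List.prod_cons]
              congr 2
            · intro p _
              refine Finset.sum_eq_zero fun e _ => ?_
              obtain ⟨σ, hσ⟩ : ∃ σ, σ = Equiv.Perm.decomposeFin.symm (p.succ, e) := ⟨_, rfl⟩
              rw [← hσ]
              have hσ0 : σ 0 = p.succ := by rw [hσ, Equiv.Perm.decomposeFin_symm_apply_zero]
              obtain ⟨j, hj⟩ := σ.surjective 0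
              have hj0 : j ≠ 0 := by
                intro h
                rw [h, hσ0] at hj
                exact Fin.succ_ne_zero _ hj
              obtain ⟨i, rfl⟩ := Fin.exists_succ_eq.2 hj0
              rw [zero_prod d _ i, smul_zero]
              rw [hj, Fin.cons_zero]
              have h5 : σ i.castSucc ≠ 0 := by
                intro h
                rw [← hj] at h
                have := σ.injective h
                exact absurd this (Fin.castSucc_lt_succ).ne
              obtain ⟨q, hq⟩ := Fin.exists_succ_eq.2 h5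
              rw [← hq, Fin.cons_succ]
              obtain ⟨l, hl, hlx⟩ := hx q
              rw [← hlx, LinearMap.toSpanSingleton_apply, smul_eq_mul]
              exact hzz l hl
          rw [h4, ← mul_assoc] at h3
          exact h3)
        exact ⟨z', hL1 hz', h2⟩

/-- **nil ideals**: a nonzero nil ideal of a ring with a polynomial identity contains a nonzero ideal with square zero -/
theorem exists_sq {R : Type} [Ring R] (h : IsPI R) (S : Ideal R) (hS2 : ∀ x ∈ S, ∀ r, x * r ∈ S)
    (hnil : ∀ x ∈ S, IsNilpotent x) (hS : S ≠ ⊥) :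
    ∃ B : Ideal R, (∀ x ∈ B, ∀ r, x * r ∈ B) ∧ B ≠ ⊥ ∧ B ≤ S ∧ ∀ x ∈ B, ∀ y ∈ B, x * y = 0 := by
  obtain ⟨d, c, hc, hs⟩ := h
  obtain ⟨z, hz, hz0, hzz⟩ := exists_zRz d c hc S hS hnil fun y _ x _ => by
    have h1 : ev c x = 0 := hs x
    rw [h1, mul_zero]
  have hB : ∀ y ∈ Ideal.span (Set.range fun s => z * s), ∀ s, z * s * y = 0 := by
    intro y hy
    induction hy using Submodule.span_induction with
    | mem y hy =>
      obtain ⟨t, rfl⟩ := hy
      intro s
      rw [← mul_assoc, hzz, zero_mul]
    | zero =>
      intro s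
      rw [mul_zero]
    | add x y _ _ hx hy =>
      intro s
      rw [mul_add, hx, hy, add_zero]
    | smul r x _ hx =>
      intro s
      rw [smul_eq_mul, ← mul_assoc, mul_assoc z s r]
      exact hx _
  refine ⟨Ideal.span (Set.range fun s => z * s), ?_, ?_, ?_, ?_⟩
  · intro x hx
    induction hx using Submodule.span_induction with
    | mem y hy =>
      obtain ⟨t, rfl⟩ := hy
      intro r
      rw [mul_assoc]
      exact Submodule.subset_span ⟨_, rfl⟩
    | zero =>
      intro r
      rw [zero_mul]
      exact Submodule.zero_mem _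
    | add x y _ _ hx hy =>
      intro r
      rw [add_mul]
      exact Submodule.add_mem _ (hx r) (hy r)
    | smul s x _ hx =>
      intro r
      rw [smul_eq_mul, mul_assoc]
      exact Ideal.mul_mem_left _ _ (hx r)
  · intro h0
    have h1 : z * 1 ∈ Ideal.span (Set.range fun s => z * s) := Submodule.subset_span ⟨1, rfl⟩
    rw [h0, mul_one] at h1
    exact hz0 h1
  · refine Ideal.span_le.2 ?_
    rintro _ ⟨s, rfl⟩
    exact hS2 z hz s
  · intro x hx
    induction hx using Submodule.span_induction with
    | mem x hx =>
      obtain ⟨t, rfl⟩ := hx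
      intro y hy
      exact hB y hy t
    | zero =>
      intro y _
      rw [zero_mul]
    | add a b _ _ ha hb =>
      intro y hy
      rw [add_mul, ha y hy, hb y hy, add_zero]
    | smul r a _ ha =>
      intro y hy
      rw [smul_eq_mul, mul_assoc, ha y hy, mul_zero]

end Pool.Agent.H38.PI
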