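import Pool.Agent.H38.PI.Hyp

/-!
# Nil ideals of rings with a polynomial identity are locally nilpotent
-/

set_option autoImplicit false

namespace Pool.Agent.H38.PI

/-- finitely many elements of a nil ideal: all long products vanish -/
theorem loc_nil {R : Type} [Ring R] (hR : IsPI R) {E : Type} [Ring E] (ρ : R →+* E) (hρ : ∀ r, ρ r = 0 → IsNilpotent r)
    {ι : Type} [Finite ι] (a : ι → R) (ha : ∀ i, ρ (a i) = 0) :
    ∃ m, ∀ l : List ι, l.length = m → (l.map a).prod = 0 := by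
  classical
  by_contra hno
  push Not at hno
  let F : Set (Ideal R) := {J | (∀ x ∈ J, ∀ r, x * r ∈ J) ∧ (∀ x ∈ J, ρ x = 0) ∧
    ∀ m : ℕ, ∃ l : List ι, l.length = m ∧ (l.map a).prod ∉ J}
  have hbot : (⊥ : Ideal R) ∈ F := by
    refine ⟨fun x hx r => ?_, fun x hx => ?_, fun m => ?_⟩
    · rw [Submodule.mem_bot] at hx ⊢
      rw [hx, zero_mul]
    · rw [Submodule.mem_bot] at hx
      rw [hx, map_zero]
    · obtain ⟨l, hl, h1⟩ := hno m
      exact ⟨l, hl, fun h => h1 ((Submodule.mem_bot R).1 h)⟩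
  obtain ⟨J, _, hJ⟩ := zorn_le_nonempty₀ F (fun C hCF hC J1 hJ1 => by
    have hmem : ∀ x, x ∈ sSup C ↔ ∃ J ∈ C, x ∈ J := fun x => Submodule.mem_sSup_of_directed ⟨J1, hJ1⟩ hC.directedOn
    refine ⟨sSup C, ⟨fun x hx r => ?_, fun x hx => ?_, fun m => ?_⟩, fun z hz => le_sSup hz⟩
    · obtain ⟨J, hJ, hx⟩ := (hmem x).1 hx
      exact (hmem _).2 ⟨J, hJ, (hCF hJ).1 x hx r⟩
    · obtain ⟨J, hJ, hx⟩ := (hmem x).1 hx
      exact (hCF hJ).2.1 x hx
    · by_contra hall
      push Not at hall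
      have hfin := List.finite_length_eq ι m
      obtain ⟨J, hJ, h1⟩ := chain_ideal hC ⟨J1, hJ1⟩ hfin.toFinset.attach
        (fun p : {l // l ∈ hfin.toFinset} => (p.1.map a).prod)
        fun p => (hmem _).1 (hall p.1 (hfin.mem_toFinset.1 p.2))
      obtain ⟨l, hl, h2⟩ := (hCF hJ).2.2 m
      exact h2 (h1 ⟨l, hfin.mem_toFinset.2 hl⟩ (Finset.mem_attach _ _))) ⊥ hbot
  obtain ⟨hJ2, hJρ, hJN⟩ := hJ.prop
  have hmax : ∀ J' ∈ F, J ≤ J' → J' ≤ J := fun J' h1 h2 => hJ.2 h1 h2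
  have iT : J.IsTwoSided := ⟨fun r hx => hJ2 _ hx _⟩
  obtain ⟨x0, hx0, hx0J⟩ : ∃ x, ρ x = 0 ∧ x ∉ J := by
    obtain ⟨l, hl, h1⟩ := hJN 1
    obtain ⟨i, rfl⟩ := List.length_eq_one_iff.1 hl
    rw [List.map_singleton, List.prod_singleton] at h1
    exact ⟨a i, ha i, h1⟩
  have hmk : ∀ x, Ideal.Quotient.mk J x = 0 ↔ x ∈ J := fun x => Ideal.Quotient.eq_zero_iff_mem
  have hsurj : Function.Surjective (Ideal.Quotient.mk J) := Ideal.Quotient.mk_surjective
  obtain ⟨B, hB2, hB0, hBS, hBB⟩ := exists_sq (R := R ⧸ J) (by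
      obtain ⟨d, c, hc, hs⟩ := hR
      exact ⟨d, c, hc, sat_surj (Ideal.Quotient.mk J) hsurj hs⟩)
    ((RingHom.ker ρ).map (Ideal.Quotient.mk J)) (by
      intro x hx r
      obtain ⟨y, hy, rfl⟩ := (Ideal.mem_map_iff_of_surjective _ hsurj).1 hx
      obtain ⟨s, rfl⟩ := hsurj r
      rw [← map_mul]
      refine Ideal.mem_map_of_mem _ ?_
      rw [RingHom.mem_ker] at hy ⊢
      rw [map_mul, hy, zero_mul]) (by
      intro x hx
      obtain ⟨y, hy, rfl⟩ := (Ideal.mem_map_iff_of_surjective _ hsurj).1 hx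
      exact (hρ y hy).map _) (by
      intro h0
      have h1 : Ideal.Quotient.mk J x0 ∈ (RingHom.ker ρ).map (Ideal.Quotient.mk J) := Ideal.mem_map_of_mem _ hx0
      rw [h0, Submodule.mem_bot, hmk] at h1
      exact hx0J h1)
  obtain ⟨J', hJ'⟩ : ∃ J' : Ideal R, ∀ x, x ∈ J' ↔ Ideal.Quotient.mk J x ∈ B :=
    ⟨B.comap (Ideal.Quotient.mk J), fun x => Ideal.mem_comap⟩
  have hJρ' : ∀ x ∈ J', ρ x = 0 := by
    intro x hx
    obtain ⟨y, hy, hxy⟩ := (Ideal.mem_map_iff_of_surjective _ hsurj).1 (hBS ((hJ' x).1 hx))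
    have h1 : x - y ∈ J := by
      rw [← hmk, map_sub, hxy, sub_self]
    have h2 := hJρ _ h1
    rw [map_sub, sub_eq_zero] at h2
    rw [h2]
    exact hy
  by_cases hF : J' ∈ F
  · have h1 : J' ≤ J := hmax J' hF fun x hx => by
      rw [hJ', (hmk x).2 hx]
      exact B.zero_mem
    apply hB0
    rw [eq_bot_iff]
    intro b hb
    obtain ⟨x, rfl⟩ := hsurj b
    rw [Submodule.mem_bot, hmk]
    exact h1 ((hJ' x).2 hb)
  · have h1 : ∃ m, ∀ l : List ι, l.length = m → (l.map a).prod ∈ J' := by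
      by_contra hall
      push Not at hall
      refine hF ⟨fun x hx r => ?_, hJρ', hall⟩
      rw [hJ', map_mul]
      exact hB2 _ ((hJ' _).1 hx) _
    obtain ⟨m, hm⟩ := h1
    obtain ⟨l, hl, h2⟩ := hJN (m + m)
    apply h2
    rw [← hmk, ← List.take_append_drop m l, List.map_append, List.prod_append, map_mul]
    refine hBB _ ((hJ' _).1 (hm _ ?_)) _ ((hJ' _).1 (hm _ ?_))
    · rw [List.length_take]
      omega
    · rw [List.length_drop]
      omega

/-- a matrix over a nil ideal is nilpotent -/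
theorem pow_zero_of {R : Type} [Ring R] {n : ℕ} (Z : Matrix (Fin n) (Fin n) R) (m : ℕ) (y : R)
    (h : ∀ l : List (Fin n × Fin n), l.length = m → (l.map fun p => Z p.1 p.2).prod * y = 0) (k l : Fin n) :
    (Z ^ m) k l * y = 0 := by
  induction m generalizing y l with
  | zero =>
    have h1 := h [] rfl
    rw [List.map_nil, List.prod_nil, one_mul] at h1
    rw [h1, mul_zero]
  | succ m ih =>
    rw [pow_succ, Matrix.mul_apply, Finset.sum_mul]
    refine Finset.sum_eq_zero fun j _ => ?_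
    rw [mul_assoc]
    refine ih _ (fun w hw => ?_) j
    have h1 := h (w ++ [(j, l)]) (by rw [List.length_append, hw]; rfl)
    rw [List.map_append, List.prod_append, List.map_singleton, List.prod_singleton, mul_assoc] at h1
    exact h1

end Pool.Agent.H38.PI
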