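import Pool.Agent.H38.PI.Emb
import Pool.Agent.H38.PI.Hyp
import Pool.Agent.H38.PI.Com
import Pool.Agent.H38.LV.Main

/-!
# Linear groups over rings with a polynomial identity
-/

set_option autoImplicit false

namespace Pool.Agent.H38.PI

open Pool.Agent.H98.FJ Pool.Agent.H76.GT Pool.Agent.H76.LN Pool.Agent.H38.LV

variable {C : (G : Type) → [Group G] → Prop}

/-- the matrices over the endomorphism ring act -/
noncomputable def toAut (A M : Type) [CommRing A] [AddCommGroup M] [Module A M] (n : ℕ) :
    (Matrix (Fin n) (Fin n) (Module.End A M))ˣ ≃* ((Fin n → M) ≃ₗ[A] (Fin n → M)) :=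
  (Units.mapEquiv (endVecRingEquivMatrixEnd (Fin n) A M).symm.toMulEquiv).trans
    (LinearMap.GeneralLinearGroup.generalLinearEquiv A (Fin n → M))

/-- linear groups over rings with a polynomial identity -/
theorem pi_image (hC : Inherits C) (hE : Extension C) (hT : TransferV C)
    (hS : ∀ (G : Type) [Group G], Group.IsSolvable G → C G) (hQ : ∀ n : ℕ, C (GL (Fin n) ℚ)) {R : Type} [Ring R]
    (hR : IsPI R) {n : ℕ} {H : Type} [Group H] (g : H →* (Matrix (Fin n) (Fin n) R)ˣ) (hg : Function.Injective g) :
    C H := by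
  obtain ⟨A, M, i1, i2, i3, i4, ρ, hρ⟩ := embed hR
  let f : H →* ((Fin n → M) ≃ₗ[A] (Fin n → M)) := (toAut A M n).toMonoidHom.comp (red g ρ)
  have hf : f.ker = (red g ρ).ker := by
    ext h
    rw [MonoidHom.mem_ker, MonoidHom.mem_ker]
    constructor
    · intro h1
      exact (toAut A M n).injective (h1.trans (map_one _).symm)
    · intro h1
      show toAut A M n (red g ρ h) = 1
      rw [h1, map_one]
  have h1 : C (H ⧸ f.ker) := hC.iso _ _ (QuotientGroup.quotientKerEquivRange f).symm (range_mem hC hE hT hS hQ f)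
  refine Pool.Agent.H38.GN.radical hC hE hT.transfer hS f.ker h1 ?_
  have h2 := red_hyper hR g hg ρ hρ
  rw [← hf] at h2
  exact h2

/-- **linear groups over rings with a polynomial identity, with hyper-(locally nilpotent or locally finite) kernels** -/
theorem pi_linear (hC : Inherits C) (hE : Extension C) (hT : TransferV C)
    (hS : ∀ (G : Type) [Group G], Group.IsSolvable G → C G) (hQ : ∀ n : ℕ, C (GL (Fin n) ℚ)) (G : Type) [Group G]
    (h : ∀ H : Subgroup G, H.FG → ∃ (R : Type) (_ : Ring R) (n : ℕ) (f : H →* GL (Fin n) R), IsPI R ∧ IsHyper f.ker) :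
    C G := by
  refine ind_fg hC G fun H hH => ?_
  obtain ⟨R, iR, n, f, hR, hf⟩ := h H hH
  have h0 : C f.range := pi_image hC hE hT hS hQ hR f.range.subtype f.range.subtype_injective
  have h1 : C (H ⧸ f.ker) := hC.iso _ _ (QuotientGroup.quotientKerEquivRange f).symm h0
  exact Pool.Agent.H38.GN.radical hC hE hT.transfer hS f.ker h1 hf

end Pool.Agent.H38.PI
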