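import Pool.Agent.H38.PI.Mat

/-!
# Endomorphism rings of finitely generated modules over rings with a polynomial identity
-/

set_option autoImplicit false

namespace Pool.Agent.H38.PI

theorem unop_prod {T : Type} [Ring T] (n : ℕ) (f : Fin n → Tᵐᵒᵖ) :
    (List.ofFn f).prod.unop = (List.ofFn fun i => (f (Fin.rev i)).unop).prod := by
  induction n with
  | zero => simp
  | succ n ih =>
    rw [List.ofFn_succ, List.prod_cons, MulOpposite.unop_mul, ih, List.ofFn_succ', List.concat_eq_append,
      List.prod_append, List.prod_singleton, Fin.rev_last]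
    congr 3
    funext i
    rw [Fin.rev_castSucc]

theorem isPI_op {T : Type} [Ring T] (h : IsPI T) : IsPI Tᵐᵒᵖ := by
  obtain ⟨d, c, hc, hs⟩ := h
  refine ⟨d, fun σ => c (MulAut.conj Fin.revPerm σ), ?_, fun x => ?_⟩
  · show c (MulAut.conj Fin.revPerm 1) = 1
    rw [map_one]
    exact hc
  have h1 := hs fun j => (x (Fin.rev j)).unop
  rw [← Equiv.sum_comp (MulAut.conj (Fin.revPerm : Equiv.Perm (Fin d))).toEquiv] at h1
  apply MulOpposite.unop_injective
  rw [MulOpposite.unop_zero, ← h1, Finset.unop_sum]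
  refine Finset.sum_congr rfl fun σ _ => ?_
  rw [MulOpposite.unop_smul, unop_prod]
  have h2 : ∀ i : Fin d, Fin.rev ((MulAut.conj (Fin.revPerm : Equiv.Perm (Fin d)) σ) i) = σ (Fin.rev i) := by
    intro i
    rw [MulAut.conj_apply]
    show Fin.rev (Fin.revPerm (σ ((Fin.revPerm : Equiv.Perm (Fin d))⁻¹ i))) = _
    rw [Fin.revPerm_apply, Fin.rev_rev]
    rfl
  show c _ • _ = c _ • _
  congr 2
  refine congrArg List.ofFn (funext fun i => ?_)
  show (x (σ (Fin.rev i))).unop = (x (Fin.rev ((MulAut.conj (Fin.revPerm : Equiv.Perm (Fin d)) σ) i))).unop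
  rw [h2]

/-- surjections -/
theorem isPI_surj {R S : Type} [Ring R] [Ring S] (f : R →+* S) (hf : Function.Surjective f) (h : IsPI R) : IsPI S := by
  obtain ⟨d, c, hc, hs⟩ := h
  exact ⟨d, c, hc, sat_surj f hf hs⟩

theorem lift_prodR {R P M : Type} [Ring R] [AddCommGroup P] [Module R P] [AddCommGroup M] [Module R M]
    (π : P →ₗ[R] M) (k : ℕ) (a : Fin k → Module.End R P) (b : Fin k → Module.End R M)
    (h : ∀ i, π ∘ₗ a i = b i ∘ₗ π) : π ∘ₗ (List.ofFn a).prod = (List.ofFn b).prod ∘ₗ π := by
  induction k with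
  | zero =>
    rw [List.ofFn_zero, List.ofFn_zero, List.prod_nil, List.prod_nil]
    rfl
  | succ k ih =>
    rw [List.ofFn_succ, List.ofFn_succ, List.prod_cons, List.prod_cons, Module.End.mul_eq_comp, Module.End.mul_eq_comp,
      ← LinearMap.comp_assoc, h, LinearMap.comp_assoc, ih (fun i => a i.succ) (fun i => b i.succ) (fun i => h _),
      LinearMap.comp_assoc]

/-- **endomorphism rings** of finitely generated modules over a ring with a polynomial identity -/
theorem isPI_endR {R : Type} [Ring R] (hR : IsPI R) (M : Type) [AddCommGroup M] [Module R M] [Module.Finite R M] :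
    IsPI (Module.End R M) := by
  classical
  obtain ⟨n, π, hπ⟩ := Module.Finite.exists_fin' R M
  have h0 : IsPI (Module.End R (Fin n → R)) := by
    have h1 : IsPI (Module.End R R) := isPI_surj (RingEquiv.moduleEndSelf R).toRingHom
      (RingEquiv.moduleEndSelf R).surjective (isPI_op hR)
    exact isPI_surj (endVecRingEquivMatrixEnd (Fin n) R R).symm.toRingHom
      (endVecRingEquivMatrixEnd (Fin n) R R).symm.surjective (isPI_matrix h1 n)
  obtain ⟨d, c, hc, hs⟩ := h0
  refine ⟨d, c, hc, fun x => ?_⟩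
  have hl : ∀ i, ∃ y : Module.End R (Fin n → R), π ∘ₗ y = x i ∘ₗ π := fun i =>
    Module.projective_lifting_property π (x i ∘ₗ π) hπ
  choose y hy using hl
  have h1 := hs y
  refine LinearMap.ext fun v => ?_
  obtain ⟨w, rfl⟩ := hπ v
  have h2 : π ((∑ σ, c σ • (List.ofFn fun i => y (σ i)).prod) w) =
      (∑ σ, c σ • (List.ofFn fun i => x (σ i)).prod) (π w) := by
    rw [LinearMap.sum_apply, LinearMap.sum_apply, map_sum]
    refine Finset.sum_congr rfl fun σ _ => ?_
    rw [LinearMap.smul_apply, LinearMap.smul_apply, map_zsmul]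
    congr 1
    exact LinearMap.congr_fun (lift_prodR π d (fun i => y (σ i)) (fun i => x (σ i)) fun i => hy _) w
  rw [← h2, h1, LinearMap.zero_apply, map_zero, LinearMap.zero_apply]

end Pool.Agent.H38.PI
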