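import Pool.Agent.H38.PI.Main
import Pool.Agent.H38.PI.Mod

/-!
# Automorphism groups of finitely generated modules over rings with a polynomial identity
-/

set_option autoImplicit false

namespace Pool.Agent.H38.PI

open Pool.Agent.H98.FJ Pool.Agent.H76.GT Pool.Agent.H76.LN Pool.Agent.H38.LV

variable {C : (G : Type) → [Group G] → Prop}

/-- commutative rings -/
theorem isPI_comm (A : Type) [CommRing A] : IsPI A := by
  refine ⟨2, fun σ => (Equiv.Perm.sign σ : ℤ), by simp, fun x => ?_⟩
  rw [show (Finset.univ : Finset (Equiv.Perm (Fin 2))) = {1, Equiv.swap 0 1} by decide]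
  rw [Finset.sum_pair (by decide)]
  simp [List.ofFn_succ, mul_comm (x 1) (x 0)]

/-- the automorphisms of a module as units of the matrix ring of size one over the endomorphism ring -/
noncomputable def unit1 (R M : Type) [Ring R] [AddCommGroup M] [Module R M] :
    (M ≃ₗ[R] M) →* (Matrix (Fin 1) (Fin 1) (Module.End R M))ˣ :=
  (Units.map ((Matrix.scalar (Fin 1) : Module.End R M →+* Matrix (Fin 1) (Fin 1) (Module.End R M)) :
    Module.End R M →* Matrix (Fin 1) (Fin 1) (Module.End R M))).comp
    (LinearMap.GeneralLinearGroup.generalLinearEquiv R M).symm.toMonoidHom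

theorem unit1_inj (R M : Type) [Ring R] [AddCommGroup M] [Module R M] : Function.Injective (unit1 R M) := by
  intro x y h
  have h1 : Matrix.scalar (Fin 1) (((LinearMap.GeneralLinearGroup.generalLinearEquiv R M).symm x : (Module.End R M)ˣ) :
      Module.End R M) = Matrix.scalar (Fin 1) (((LinearMap.GeneralLinearGroup.generalLinearEquiv R M).symm y :
        (Module.End R M)ˣ) : Module.End R M) := congrArg Units.val h
  have h2 := congrFun (congrFun h1 0) 0
  rw [Matrix.scalar_apply, Matrix.scalar_apply, Matrix.diagonal_apply_eq, Matrix.diagonal_apply_eq] at h2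
  exact (LinearMap.GeneralLinearGroup.generalLinearEquiv R M).symm.injective (Units.ext h2)

/-- **automorphism groups of finitely generated modules over rings with a polynomial identity, with
hyper-(locally nilpotent or locally finite) kernels** -/
theorem pi_aut (hC : Inherits C) (hE : Extension C) (hT : TransferV C)
    (hS : ∀ (G : Type) [Group G], Group.IsSolvable G → C G) (hQ : ∀ n : ℕ, C (GL (Fin n) ℚ)) (G : Type) [Group G]
    (h : ∀ H : Subgroup G, H.FG → ∃ (R M : Type) (_ : Ring R) (_ : AddCommGroup M) (_ : Module R M)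
      (f : H →* (M ≃ₗ[R] M)), IsPI R ∧ Module.Finite R M ∧ IsHyper f.ker) :
    C G := by
  refine pi_linear hC hE hT hS hQ G fun H hH => ?_
  obtain ⟨R, M, iR, iM, iRM, f, hR, hM, hf⟩ := h H hH
  refine ⟨Module.End R M, inferInstance, 1, (unit1 R M).comp f, isPI_endR hR M, ?_⟩
  have h1 : ((unit1 R M).comp f).ker = f.ker := by
    ext x
    rw [MonoidHom.mem_ker, MonoidHom.mem_ker, MonoidHom.comp_apply]
    constructor
    · intro h2
      exact unit1_inj R M (h2.trans (map_one _).symm)
    · intro h2
      rw [h2, map_one]
  have h2 : IsHyper (((unit1 R M).comp f).ker) := by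
    rw [h1]
    exact hf
  exact h2

end Pool.Agent.H38.PI
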