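import Pool.Agent.H38.PI.Pol

/-!
# A ring with a power of a multilinear identity has a multilinear identity
-/

set_option autoImplicit false

namespace Pool.Agent.H38.PI

open Finset

/-- the word positions -/
def ee {m D : ℕ} (s : Fin m → Equiv.Perm (Fin D)) : Fin (m * D) ≃ Fin m × Fin D :=
  finProdFinEquiv.symm.trans (Equiv.prodShear (Equiv.refl _) s)

theorem ee_apply {m D : ℕ} (s : Fin m → Equiv.Perm (Fin D)) (a : Fin m) (i : Fin D) :
    ee s (finProdFinEquiv (a, i)) = (a, s a i) := by
  rw [ee, Equiv.trans_apply, Equiv.symm_apply_apply]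
  rfl

theorem ee_eq {m D : ℕ} (s : Fin m → Equiv.Perm (Fin D)) (p : Fin (m * D)) :
    ee s p = ((finProdFinEquiv.symm p).1, s (finProdFinEquiv.symm p).1 (finProdFinEquiv.symm p).2) := rfl

theorem prodprod {T : Type} [Ring T] {m D : ℕ} (f : Fin m → Fin D → T) :
    (List.ofFn fun p : Fin (m * D) => f (finProdFinEquiv.symm p).1 (finProdFinEquiv.symm p).2).prod =
      (List.ofFn fun a => (List.ofFn fun i => f a i).prod).prod := by
  rw [List.ofFn_mul, List.prod_flatten, List.map_ofFn]
  congr 2
  funext a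
  show (List.ofFn _).prod = _
  congr 2
  funext i
  have h1 : ∀ h, finProdFinEquiv.symm (⟨(a : ℕ) * D + i, h⟩ : Fin (m * D)) = (a, i) := by
    intro h
    rw [Equiv.symm_apply_eq]
    refine Fin.ext ?_
    show (a : ℕ) * D + i = i + D * a
    ring
  rw [h1]

/-- the product of `m` values of the polynomial as a multilinear map -/
noncomputable def FF {T : Type} [Ring T] {D : ℕ} (c : Equiv.Perm (Fin D) → ℤ) (m : ℕ) :
    MultilinearMap ℤ (fun _ : Fin m × Fin D => T) T :=
  ∑ s : Fin m → Equiv.Perm (Fin D), (∏ a, c (s a)) • (MultilinearMap.mkPiAlgebraFin ℤ (m * D) T).domDomCongr (ee s)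

theorem FF_apply {T : Type} [Ring T] {D : ℕ} (c : Equiv.Perm (Fin D) → ℤ) (m : ℕ) (v : Fin m × Fin D → T) :
    FF c m v = ∑ s : Fin m → Equiv.Perm (Fin D), (∏ a, c (s a)) • (List.ofFn fun p => v (ee s p)).prod := by
  rw [FF, _root_.sum_apply]
  refine sum_congr rfl fun s _ => ?_
  rw [_root_.smul_apply, MultilinearMap.domDomCongr_apply, MultilinearMap.mkPiAlgebraFin_apply]

theorem FF_diag {T : Type} [Ring T] {D : ℕ} (c : Equiv.Perm (Fin D) → ℤ) (m : ℕ) (x : Fin D → T) :
    FF c m (fun j => x j.2) = (ev c x) ^ m := by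
  classical
  have h1 : (ev c x) ^ m = MultilinearMap.mkPiAlgebraFin ℤ m T fun _ => ev c x := by
    rw [MultilinearMap.mkPiAlgebraFin_apply, List.ofFn_const, List.prod_replicate]
  rw [h1, FF_apply]
  show _ = MultilinearMap.mkPiAlgebraFin ℤ m T fun _ => ∑ σ, c σ • (List.ofFn fun i => x (σ i)).prod
  rw [MultilinearMap.map_sum]
  refine sum_congr rfl fun s _ => ?_
  rw [MultilinearMap.map_smul_univ (MultilinearMap.mkPiAlgebraFin ℤ m T) (fun a => c (s a))
    fun a => (List.ofFn fun i => x (s a i)).prod, MultilinearMap.mkPiAlgebraFin_apply, ← prodprod]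
  rfl

/-- **the multilinear identity** -/
theorem isPI_of_pow {T : Type} [Ring T] {D m : ℕ} (c : Equiv.Perm (Fin D) → ℤ) (hc : c 1 = 1)
    (h : ∀ x : Fin D → T, (ev c x) ^ m = 0) : IsPI T := by
  classical
  let P : (Fin m × Fin D → Fin m) → (Fin m → Equiv.Perm (Fin D)) → Equiv.Perm (Fin (m * D)) → Prop :=
    fun r s π => Function.Surjective (fun j : Fin m × Fin D => (r j, j.2)) ∧
      ∀ p, π p = finProdFinEquiv (r (ee s p), (ee s p).2)
  refine ⟨m * D, fun π => ∑ r : Fin m × Fin D → Fin m, ∑ s : Fin m → Equiv.Perm (Fin D),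
    if P r s π then ∏ a, c (s a) else 0, ?_, fun x => ?_⟩
  · have hP : ∀ r s, P r s 1 → s = (fun _ => 1) ∧ r = fun j => j.1 := by
      rintro r s ⟨_, h1⟩
      have h2 : ∀ a i, (a, i) = (r (a, s a i), s a i) := by
        intro a i
        have h3 := h1 (finProdFinEquiv (a, i))
        rw [ee_apply] at h3
        exact finProdFinEquiv.injective h3
      have h4 : ∀ a i, s a i = i := fun a i => (congrArg Prod.snd (h2 a i)).symm
      refine ⟨funext fun a => Equiv.ext fun i => h4 a i, funext fun j => ?_⟩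
      have h5 := congrArg Prod.fst (h2 j.1 j.2)
      rw [h4] at h5
      exact h5.symm
    have hP0 : P (fun j => j.1) (fun _ => 1) 1 := by
      refine ⟨fun j => ⟨j, rfl⟩, fun p => ?_⟩
      show p = finProdFinEquiv (finProdFinEquiv.symm p)
      rw [Equiv.apply_symm_apply]
    beta_reduce
    rw [sum_eq_single (fun j : Fin m × Fin D => j.1), sum_eq_single (fun _ : Fin m => (1 : Equiv.Perm (Fin D))), if_pos hP0]
    · rw [prod_congr rfl fun a _ => hc, prod_const_one]
    · intro s _ hs
      rw [if_neg]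
      intro h1
      exact hs (hP _ _ h1).1
    · intro h1
      exact (h1 (mem_univ _)).elim
    · intro r _ hr
      refine sum_eq_zero fun s _ => ?_
      rw [if_neg]
      intro h1
      exact hr (hP _ _ h1).2
    · intro h1
      exact (h1 (mem_univ _)).elim
  · have h0 := polarise (FF (T := T) c m) (fun y => by rw [FF_diag, h]) fun j => x (finProdFinEquiv j)
    refine Eq.trans ?_ h0
    simp only [sum_smul]
    rw [sum_comm]
    refine sum_congr rfl fun r _ => ?_
    rw [sum_comm]
    by_cases hr : Function.Surjective (fun j : Fin m × Fin D => (r j, j.2))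
    · rw [if_pos hr, FF_apply]
      refine sum_congr rfl fun s _ => ?_
      have hb : Function.Bijective (fun j : Fin m × Fin D => (r j, j.2)) := ⟨Finite.injective_iff_surjective.2 hr, hr⟩
      let π0 : Equiv.Perm (Fin (m * D)) := ((ee s).trans (Equiv.ofBijective _ hb)).trans finProdFinEquiv
      have hπ0 : ∀ p, π0 p = finProdFinEquiv (r (ee s p), (ee s p).2) := fun p => rfl
      rw [sum_eq_single π0]
      · rw [if_pos ⟨hr, hπ0⟩]
        rfl
      · intro π _ hπ
        rw [if_neg, zero_smul]
        rintro ⟨_, h1⟩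
        exact hπ (Equiv.ext fun p => (h1 p).trans (hπ0 p).symm)
      · intro h1
        exact (h1 (mem_univ _)).elim
    · rw [if_neg hr]
      refine sum_eq_zero fun s _ => sum_eq_zero fun π _ => ?_
      rw [if_neg, zero_smul]
      exact fun h1 => hr h1.1

end Pool.Agent.H38.PI
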