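import Pool.Agent.H38.PI.Emb
import Pool.Agent.H38.PI.Loc
import Pool.Agent.H38.PI.Com
import Pool.Agent.H38.PI.Pol2

/-!
# Matrix rings over rings with a polynomial identity
-/

set_option autoImplicit false

namespace Pool.Agent.H38.PI

open Polynomial

/-- the representation, with the number of generators -/
theorem embed_d {R : Type} [Ring R] {d : ℕ} {c : Equiv.Perm (Fin d) → ℤ} (hc : c 1 = 1) (hs : Sat c R) :
    ∃ (A M : Type) (_ : CommRing A) (_ : AddCommGroup M) (_ : Module A M) (ρ : R →+* Module.End A M),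
      (∃ e : Fin d → M, Submodule.span A (Set.range e) = ⊤) ∧ ∀ r, ρ r = 0 → IsNilpotent r := by
  classical
  have hs' : Sat c R[X] := sat_poly hs
  have hsimp : ∀ m : Mx R, IsSimpleModule R[X] (R[X] ⧸ m.1) := fun m => isSimpleModule_iff_isCoatom.2 m.2.out
  choose L iF iM hcomm e he using fun m : Mx R => @simple_bound R[X] _ d c hc hs' (R[X] ⧸ m.1) _ _ (hsimp m)
  let act : R → (∀ m : Mx R, R[X] ⧸ m.1) →ₗ[∀ m : Mx R, L m] (∀ m : Mx R, R[X] ⧸ m.1) := fun r =>
    { toFun := fun v m => (C r : R[X]) • v m
      map_add' := fun v w => by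
        funext m
        exact smul_add _ _ _
      map_smul' := fun a v => by
        funext m
        exact hcomm m _ _ _ }
  let ρ : R →+* Module.End (∀ m : Mx R, L m) (∀ m : Mx R, R[X] ⧸ m.1) :=
    { toFun := act
      map_one' := by
        refine LinearMap.ext fun v => ?_
        funext m
        show (C (1 : R) : R[X]) • v m = v m
        rw [C_1, one_smul]
      map_mul' := fun r s => by
        refine LinearMap.ext fun v => ?_
        funext m
        show (C (r * s) : R[X]) • v m = (C r : R[X]) • (C s : R[X]) • v m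
        rw [C_mul, mul_smul]
      map_zero' := by
        refine LinearMap.ext fun v => ?_
        funext m
        show (C (0 : R) : R[X]) • v m = 0
        rw [C_0, zero_smul]
      map_add' := fun r s => by
        refine LinearMap.ext fun v => ?_
        funext m
        show (C (r + s) : R[X]) • v m = (C r : R[X]) • v m + (C s : R[X]) • v m
        rw [C_add, add_smul] }
  refine ⟨∀ m : Mx R, L m, ∀ m : Mx R, R[X] ⧸ m.1, inferInstance, inferInstance, inferInstance, ρ,
    ⟨fun j m => e m j, ?_⟩, fun r hr => ?_⟩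
  · rw [eq_top_iff]
    intro v _
    have h1 : ∀ m, ∃ a : Fin d → L m, ∑ j, a j • e m j = v m := by
      intro m
      have h2 : v m ∈ Submodule.span (L m) (Set.range (e m)) := by
        rw [he m]
        exact Submodule.mem_top
      exact (Submodule.mem_span_range_iff_exists_fun (L m)).1 h2
    choose a ha using h1
    have h3 : v = ∑ j : Fin d, (fun m => a m j : ∀ m : Mx R, L m) • (fun m : Mx R => e m j) := by
      funext m
      rw [Finset.sum_apply, ← ha m]
      rfl
    rw [h3]
    exact Submodule.sum_mem _ fun j _ => Submodule.smul_mem _ _ (Submodule.subset_span ⟨j, rfl⟩)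
  · refine nil_of_ann r fun m s => ?_
    have h1 := LinearMap.congr_fun hr fun m' => if h : m' = m then h ▸ s else 0
    have h2 := congrFun h1 m
    have h3 : (C r : R[X]) • (if h : m = m then h ▸ s else 0 : R[X] ⧸ m.1) = 0 := h2
    rwa [dif_pos rfl] at h3

/-- the standard polynomial -/
def sgn (D : ℕ) : Equiv.Perm (Fin D) → ℤ := fun σ => (Equiv.Perm.sign σ : ℤ)

theorem sgn_one (D : ℕ) : sgn D 1 = 1 := by
  simp [sgn]

theorem sat_span (A T : Type) [CommRing A] [Ring T] [Algebra A T] (m : ℕ) (s : Fin m → T)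
    (hs : Submodule.span A (Set.range s) = ⊤) : Sat (sgn (m + 1)) T := by
  classical
  intro x
  let F : AlternatingMap A T T (Fin (m + 1)) := MultilinearMap.alternatization (MultilinearMap.mkPiAlgebraFin A (m + 1) T)
  have hF : ∀ y : Fin (m + 1) → T, F y = ev (sgn (m + 1)) y := by
    intro y
    show MultilinearMap.alternatization _ y = _
    rw [MultilinearMap.alternatization_apply]
    refine Finset.sum_congr rfl fun σ _ => ?_
    rw [MultilinearMap.domDomCongr_apply, MultilinearMap.mkPiAlgebraFin_apply]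
    rfl
  have hx : ∀ i, ∃ a : Fin m → A, ∑ j, a j • s j = x i := by
    intro i
    have h1 : x i ∈ Submodule.span A (Set.range s) := by
      rw [hs]
      exact Submodule.mem_top
    exact (Submodule.mem_span_range_iff_exists_fun A).1 h1
  choose a ha using hx
  rw [← hF, show x = fun i => ∑ j, a i j • s j from funext fun i => (ha i).symm]
  show F.toMultilinearMap _ = 0
  rw [MultilinearMap.map_sum]
  refine Finset.sum_eq_zero fun r _ => ?_
  rw [MultilinearMap.map_smul_univ F.toMultilinearMap (fun i => a i (r i)) fun i => s (r i)]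
  obtain ⟨i, j, hij, hr⟩ := Fintype.exists_ne_map_eq_of_card_lt r (by rw [Fintype.card_fin, Fintype.card_fin]; omega)
  have h0 : F (fun i => s (r i)) = 0 := F.map_eq_zero_of_eq _ (by rw [hr]) hij
  have h1 : F.toMultilinearMap (fun i => s (r i)) = 0 := h0
  rw [h1, smul_zero]

/-- endomorphisms of a module with `k` generators over a commutative ring -/
theorem sat_end (A M : Type) [CommRing A] [AddCommGroup M] [Module A M] (k : ℕ) (e : Fin k → M)
    (he : Submodule.span A (Set.range e) = ⊤) : Sat (sgn (k * k + 1)) (Module.End A M) := by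
  classical
  have h0 : Sat (sgn (k * k + 1)) (Module.End A (Fin k → A)) := by
    let b : Module.Basis (Fin (k * k)) A (Module.End A (Fin k → A)) :=
      ((Matrix.stdBasis A (Fin k) (Fin k)).map Matrix.toLin').reindex finProdFinEquiv
    exact sat_span A _ (k * k) b b.span_eq
  let π : (Fin k → A) →ₗ[A] M := Fintype.linearCombination A e
  have hπ : Function.Surjective π := by
    intro v
    have h1 : v ∈ Submodule.span A (Set.range e) := by
      rw [he]
      exact Submodule.mem_top
    obtain ⟨a, ha⟩ := (Submodule.mem_span_range_iff_exists_fun A).1 h1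
    exact ⟨a, by rw [Fintype.linearCombination_apply]; exact ha⟩
  intro x
  have hl : ∀ i, ∃ y : Module.End A (Fin k → A), π ∘ₗ y = x i ∘ₗ π := fun i =>
    Module.projective_lifting_property π (x i ∘ₗ π) hπ
  choose y hy using hl
  have h1 := h0 y
  rw [ev] at h1 ⊢
  refine LinearMap.ext fun v => ?_
  obtain ⟨w, rfl⟩ := hπ v
  have h2 : π ((∑ σ, sgn (k * k + 1) σ • (List.ofFn fun i => y (σ i)).prod) w) =
      (∑ σ, sgn (k * k + 1) σ • (List.ofFn fun i => x (σ i)).prod) (π w) := by
    rw [LinearMap.sum_apply, LinearMap.sum_apply, map_sum]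
    refine Finset.sum_congr rfl fun σ _ => ?_
    rw [LinearMap.smul_apply, LinearMap.smul_apply, map_zsmul]
    congr 1
    exact LinearMap.congr_fun (lift_prod π _ (fun i => y (σ i)) (fun i => x (σ i)) fun i => hy _) w
  rw [← h2, h1, LinearMap.zero_apply, map_zero, LinearMap.zero_apply]

/-- generators of a power of a module -/
theorem span_pi (A M : Type) [CommRing A] [AddCommGroup M] [Module A M] (n k : ℕ) (e : Fin k → M)
    (he : Submodule.span A (Set.range e) = ⊤) :
    ∃ e' : Fin (n * k) → (Fin n → M), Submodule.span A (Set.range e') = ⊤ := by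
  classical
  refine ⟨fun p => Pi.single (finProdFinEquiv.symm p).1 (e (finProdFinEquiv.symm p).2), ?_⟩
  rw [eq_top_iff]
  intro v _
  have h1 : v = ∑ a, LinearMap.single A (fun _ : Fin n => M) a (v a) := by
    funext i
    rw [Finset.sum_apply]
    simp
  rw [h1]
  refine Submodule.sum_mem _ fun a _ => ?_
  have h2 : v a ∈ Submodule.span A (Set.range e) := by
    rw [he]
    exact Submodule.mem_top
  obtain ⟨c, hc⟩ := (Submodule.mem_span_range_iff_exists_fun A).1 h2
  rw [← hc, map_sum]
  refine Submodule.sum_mem _ fun j _ => ?_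
  rw [map_smul]
  refine Submodule.smul_mem _ _ (Submodule.subset_span ⟨finProdFinEquiv (a, j), ?_⟩)
  dsimp only
  rw [Equiv.symm_apply_apply]
  rfl

/-- **matrix rings** over a ring with a polynomial identity -/
theorem isPI_matrix {R : Type} [Ring R] (hR : IsPI R) (n : ℕ) : IsPI (Matrix (Fin n) (Fin n) R) := by
  classical
  obtain ⟨d, c, hc, hs⟩ := hR
  have hs1 : Sat c R := hs
  obtain ⟨k, hk⟩ : ∃ k, k = n * d := ⟨_, rfl⟩
  obtain ⟨D, hD⟩ : ∃ D, D = k * k + 1 := ⟨_, rfl⟩
  have hs' : Sat c ((Fin D → Matrix (Fin n) (Fin n) R) → R) := by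
    intro y
    funext x
    have h1 := map_ev c (Pi.evalRingHom (fun _ : Fin D → Matrix (Fin n) (Fin n) R => R) x) y
    rw [hs1] at h1
    exact h1
  obtain ⟨A, M, i1, i2, i3, ρ, ⟨e, he⟩, hρ⟩ := embed_d hc hs'
  obtain ⟨e', he'⟩ := span_pi A M n d e he
  rw [← hk] at e'
  have hE : Sat (sgn D) (Matrix (Fin n) (Fin n) (Module.End A M)) := by
    have h1 : Sat (sgn D) (Module.End A (Fin n → M)) := by
      rw [hD]
      subst hk
      exact sat_end A _ _ _ he'
    exact sat_inj (endVecRingEquivMatrixEnd (Fin n) A M).symm.toRingHom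
      (endVecRingEquivMatrixEnd (Fin n) A M).symm.injective h1
  let y : Fin D → Matrix (Fin n) (Fin n) ((Fin D → Matrix (Fin n) (Fin n) R) → R) := fun i =>
    Matrix.of fun k l x => x i k l
  have hZ : ∀ k l, ρ (ev (sgn D) y k l) = 0 := by
    intro k l
    have h1 := map_ev (sgn D) (ρ.mapMatrix : Matrix (Fin n) (Fin n) _ →+* Matrix (Fin n) (Fin n) _) y
    rw [hE] at h1
    exact congrFun (congrFun h1 k) l
  obtain ⟨m, hm⟩ := loc_nil (ι := Fin n × Fin n) ⟨d, c, hc, hs'⟩ ρ hρ (fun p => ev (sgn D) y p.1 p.2) fun p => hZ _ _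
  have hZm : (ev (sgn D) y) ^ m = 0 := by
    refine Matrix.ext fun k l => ?_
    have h1 := pow_zero_of (ev (sgn D) y) m 1 (fun w hw => by rw [hm w hw, zero_mul]) k l
    rw [mul_one] at h1
    exact h1
  refine isPI_of_pow (sgn D) (sgn_one D) (m := m) fun x => ?_
  have h1 := map_ev (sgn D) ((Pi.evalRingHom (fun _ : Fin D → Matrix (Fin n) (Fin n) R => R) x).mapMatrix :
    Matrix (Fin n) (Fin n) _ →+* Matrix (Fin n) (Fin n) _) y
  have h2 : (fun i => ((Pi.evalRingHom (fun _ : Fin D → Matrix (Fin n) (Fin n) R => R) x).mapMatrix :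
    Matrix (Fin n) (Fin n) _ →+* Matrix (Fin n) (Fin n) _) (y i)) = x := by
    funext i
    rfl
  rw [h2] at h1
  rw [← h1, ← map_pow, hZm, map_zero]

end Pool.Agent.H38.PI
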