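import Pool.Agent.H38.PI.Poly

/-!
# Polarisation: from a power of a multilinear polynomial to a multilinear identity
-/

set_option autoImplicit false

namespace Pool.Agent.H38.PI

open Finset

theorem sum_superset {J : Type} [Fintype J] [DecidableEq J] (T0 : Finset J) :
    ∑ S : Finset J, (if T0 ⊆ S then (-1 : ℤ) ^ S.card else 0) = if T0 = univ then (-1) ^ Fintype.card J else 0 := by
  split_ifs with h
  · subst h
    rw [Finset.sum_eq_single (univ : Finset J)]
    · rw [if_pos (Subset.refl _), card_univ]
    · intro S _ hS
      rw [if_neg]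
      intro h
      exact hS (univ_subset_iff.1 h)
    · intro h
      exact (h (mem_univ _)).elim
  · obtain ⟨j, hj⟩ : ∃ j, j ∉ T0 := by
      by_contra hall
      push Not at hall
      exact h (eq_univ_of_forall hall)
    refine Finset.sum_involution (fun S _ => symmDiff S {j}) ?_ ?_ ?_ ?_
    · intro S _
      by_cases hS : j ∈ S
      · have h1 : symmDiff S {j} = S.erase j := by
          ext i
          simp only [mem_symmDiff, mem_singleton, mem_erase]
          constructor
          · rintro (⟨h1, h2⟩ | ⟨h1, h2⟩)
            · exact ⟨h2, h1⟩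
            · exact (h2 (h1 ▸ hS)).elim
          · rintro ⟨h1, h2⟩
            exact Or.inl ⟨h2, h1⟩
        have h2 : T0 ⊆ S.erase j ↔ T0 ⊆ S := by
          rw [subset_erase]
          exact ⟨fun h => h.1, fun h => ⟨h, hj⟩⟩
        rw [h1]
        simp only [h2]
        split_ifs
        · rw [← card_erase_add_one hS, pow_succ]
          ring
        · ring
      · have h1 : symmDiff S {j} = insert j S := by
          ext i
          simp only [mem_symmDiff, mem_singleton, mem_insert]
          constructor
          · rintro (⟨h1, h2⟩ | ⟨h1, h2⟩)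
            · exact Or.inr h1
            · exact Or.inl h1
          · rintro (h1 | h1)
            · exact Or.inr ⟨h1, h1 ▸ hS⟩
            · exact Or.inl ⟨h1, fun h2 => hS (h2 ▸ h1)⟩
        have h2 : T0 ⊆ insert j S ↔ T0 ⊆ S := by
          constructor
          · intro h i hi
            rcases mem_insert.1 (h hi) with h3 | h3
            · exact (hj (h3 ▸ hi)).elim
            · exact h3
          · intro h
            exact h.trans (subset_insert _ _)
        rw [h1]
        simp only [h2]
        split_ifs
        · rw [card_insert_of_notMem hS, pow_succ]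
          ring
        · ring
    · intro S _ _ h1
      have h2 : j ∈ symmDiff S {j} ↔ j ∈ S := by rw [h1]
      rw [mem_symmDiff, mem_singleton] at h2
      by_cases hS : j ∈ S
      · rcases h2.2 hS with h3 | h3
        · exact h3.2 rfl
        · exact h3.2 hS
      · exact hS (h2.1 (Or.inr ⟨rfl, hS⟩))
    · intro S _
      exact mem_univ _
    · intro S _
      rw [symmDiff_assoc, symmDiff_self]
      exact symmDiff_bot S

/-- **polarisation** for a map which is additive in every variable: `J = Fin m × Fin D`, the variables `(a, i)` are equal for all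
`a` -/
theorem polarise {T : Type} [AddCommGroup T] {V : Type} [AddCommGroup V] {m D : ℕ}
    (F : MultilinearMap ℤ (fun _ : Fin m × Fin D => V) T) (h0 : ∀ x : Fin D → V, F (fun j => x j.2) = 0)
    (u : Fin m × Fin D → V) :
    ∑ r : Fin m × Fin D → Fin m, (if Function.Surjective (fun j => (r j, j.2)) then F (fun j => u (r j, j.2)) else 0) = 0 := by
  classical
  have h1 : ∀ S : Finset (Fin m × Fin D),
      ∑ r : Fin m × Fin D → Fin m, (if ∀ j, (r j, j.2) ∈ S then F (fun j => u (r j, j.2)) else 0) = 0 := by
    intro S
    have h2 := h0 fun i => ∑ b : Fin m, if (b, i) ∈ S then u (b, i) else 0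
    rw [MultilinearMap.map_sum] at h2
    refine Eq.trans (sum_congr rfl fun r _ => ?_) h2
    split_ifs with h
    · congr 1
      funext j
      rw [if_pos (h j)]
    · push Not at h
      obtain ⟨j, hj⟩ := h
      refine (F.map_coord_zero j ?_).symm
      exact if_neg hj
  have h3 : ∑ S : Finset (Fin m × Fin D), (-1 : ℤ) ^ S.card •
      ∑ r : Fin m × Fin D → Fin m, (if ∀ j, (r j, j.2) ∈ S then F (fun j => u (r j, j.2)) else 0) = 0 :=
    sum_eq_zero fun S _ => by rw [h1 S, smul_zero]
  have h4 : ∑ r : Fin m × Fin D → Fin m, (∑ S : Finset (Fin m × Fin D),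
      (if (univ.image fun j => (r j, j.2)) ⊆ S then (-1 : ℤ) ^ S.card else 0)) • F (fun j => u (r j, j.2)) = 0 := by
    rw [← h3]
    simp only [sum_smul, smul_sum]
    rw [sum_comm]
    refine sum_congr rfl fun S _ => sum_congr rfl fun r _ => ?_
    have h5 : (univ.image fun j : Fin m × Fin D => (r j, j.2)) ⊆ S ↔ ∀ j, (r j, j.2) ∈ S := by
      rw [image_subset_iff]
      exact ⟨fun h j => h j (mem_univ _), fun h j _ => h j⟩
    simp only [h5]
    split_ifs
    · rfl
    · rw [zero_smul, smul_zero]
  have h6 : ∀ r : Fin m × Fin D → Fin m, (∑ S : Finset (Fin m × Fin D),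
      (if (univ.image fun j => (r j, j.2)) ⊆ S then (-1 : ℤ) ^ S.card else 0)) • F (fun j => u (r j, j.2)) =
      (-1 : ℤ) ^ Fintype.card (Fin m × Fin D) •
        (if Function.Surjective (fun j => (r j, j.2)) then F (fun j => u (r j, j.2)) else 0) := by
    intro r
    rw [sum_superset]
    have h7 : (univ.image fun j : Fin m × Fin D => (r j, j.2)) = univ ↔ Function.Surjective (fun j => (r j, j.2)) := by
      constructor
      · intro h j
        have h8 : j ∈ (univ.image fun j : Fin m × Fin D => (r j, j.2)) := by
          rw [h]
          exact mem_univ j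
        obtain ⟨i, _, hi⟩ := mem_image.1 h8
        exact ⟨i, hi⟩
      · intro h
        exact image_univ_of_surjective h
    simp only [h7]
    split_ifs
    · rfl
    · rw [zero_smul, smul_zero]
  rw [sum_congr rfl fun r _ => h6 r, ← smul_sum] at h4
  have h8 : (-1 : ℤ) ^ Fintype.card (Fin m × Fin D) • (-1 : ℤ) ^ Fintype.card (Fin m × Fin D) •
      ∑ r : Fin m × Fin D → Fin m, (if Function.Surjective (fun j => (r j, j.2)) then F (fun j => u (r j, j.2)) else 0) = 0 := by
    rw [h4, smul_zero]
  rw [smul_smul, ← mul_pow, neg_one_mul, neg_neg, one_pow, one_smul] at h8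
  exact h8

end Pool.Agent.H38.PI
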