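import Pool.Agent.H38.PI.Def

/-!
# Identities: subrings, quotients, polynomials
-/

set_option autoImplicit false

namespace Pool.Agent.H38.PI

open Polynomial

/-- the value of the multilinear polynomial -/
def ev {R : Type} [Ring R] {d : ℕ} (c : Equiv.Perm (Fin d) → ℤ) (x : Fin d → R) : R :=
  ∑ σ, c σ • (List.ofFn fun i => x (σ i)).prod

/-- the identity -/
def Sat {d : ℕ} (c : Equiv.Perm (Fin d) → ℤ) (R : Type) [Ring R] : Prop := ∀ x : Fin d → R, ev c x = 0

theorem map_ev {R S : Type} [Ring R] [Ring S] {d : ℕ} (c : Equiv.Perm (Fin d) → ℤ) (f : R →+* S) (x : Fin d → R) :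
    f (ev c x) = ev c (fun i => f (x i)) := by
  rw [ev, ev, map_sum]
  refine Finset.sum_congr rfl fun σ _ => ?_
  rw [map_zsmul, map_list_prod, List.map_ofFn]
  rfl

theorem sat_inj {R S : Type} [Ring R] [Ring S] {d : ℕ} {c : Equiv.Perm (Fin d) → ℤ} (f : R →+* S)
    (hf : Function.Injective f) (h : Sat c S) : Sat c R := by
  intro x
  apply hf
  rw [map_ev, h, map_zero]

theorem sat_surj {R S : Type} [Ring R] [Ring S] {d : ℕ} {c : Equiv.Perm (Fin d) → ℤ} (f : R →+* S)
    (hf : Function.Surjective f) (h : Sat c R) : Sat c S := by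
  intro x
  choose y hy using fun i => hf (x i)
  have h1 := map_ev c f y
  rw [h, map_zero] at h1
  rw [h1]
  congr 1
  funext i
  exact (hy i).symm

/-- the multilinear map -/
noncomputable def evM {d : ℕ} (c : Equiv.Perm (Fin d) → ℤ) (R : Type) [Ring R] :
    MultilinearMap ℤ (fun _ : Fin d => R) R :=
  ∑ σ, c σ • (MultilinearMap.mkPiAlgebraFin ℤ d R).domDomCongr σ

theorem evM_apply {d : ℕ} (c : Equiv.Perm (Fin d) → ℤ) (R : Type) [Ring R] (x : Fin d → R) :
    evM c R x = ev c x := by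
  rw [evM, ev, _root_.sum_apply]
  refine Finset.sum_congr rfl fun σ _ => ?_
  rw [_root_.smul_apply, MultilinearMap.domDomCongr_apply, MultilinearMap.mkPiAlgebraFin_apply]

theorem prod_mon {R : Type} [Ring R] (n : ℕ) (k : Fin n → ℕ) (a : Fin n → R) :
    (List.ofFn fun i => monomial (k i) (a i)).prod = monomial (∑ i, k i) (List.ofFn a).prod := by
  induction n with
  | zero => simp
  | succ n ih =>
    rw [List.ofFn_succ, List.prod_cons, ih, monomial_mul_monomial, Fin.sum_univ_succ, List.ofFn_succ, List.prod_cons]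

theorem sat_poly {R : Type} [Ring R] {d : ℕ} {c : Equiv.Perm (Fin d) → ℤ} (h : Sat c R) : Sat c R[X] := by
  intro x
  obtain ⟨N, hN⟩ : ∃ N, ∀ i, (x i).natDegree < N := by
    refine ⟨(Finset.univ.sup fun i => (x i).natDegree) + 1, fun i => Nat.lt_succ_of_le ?_⟩
    exact Finset.le_sup (f := fun i => (x i).natDegree) (Finset.mem_univ i)
  have hx : x = fun i => ∑ j : Fin N, monomial (j : ℕ) ((x i).coeff j) := by
    funext i
    rw [Fin.sum_univ_eq_sum_range (fun j => monomial j ((x i).coeff j)) N]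
    exact (x i).as_sum_range' N (hN i)
  rw [← evM_apply, hx, MultilinearMap.map_sum]
  refine Finset.sum_eq_zero fun r _ => ?_
  rw [evM_apply, ev]
  have h1 : ∀ σ : Equiv.Perm (Fin d), c σ • (List.ofFn fun i => monomial (r (σ i) : ℕ) ((x (σ i)).coeff (r (σ i)))).prod
      = monomial (∑ i, (r i : ℕ)) (c σ • (List.ofFn fun i => (x (σ i)).coeff (r (σ i))).prod) := by
    intro σ
    rw [prod_mon, map_zsmul, Equiv.sum_comp σ fun i => (r i : ℕ)]
  rw [Finset.sum_congr rfl fun σ _ => h1 σ, ← map_sum]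
  have h2 := h fun i => (x i).coeff (r i)
  rw [ev] at h2
  rw [h2, map_zero]

end Pool.Agent.H38.PI
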